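import Pool.Agent.MP_187b32_an.Solver.Energy

/-!
Abstract energy inequalities at all orders: time dependent dissipation, bilinear terms,
interpolation.
-/

set_option autoImplicit false

open Set Filter Topology Finset

noncomputable section

namespace Pool.Agent.MP_187b32_an.M7

open Solver

variable {X : Type*} [AddCommGroup X] [Module ℝ X] {ι : Type*} [Fintype ι]
  {Z : ι → X →ₗ[ℝ] X} {b : PD X} {d : X → ℝ} {I : Set ℝ}

lemma lq_mono {d e : X → ℝ} (h : ∀ x, d x ≤ e x) (n : ℕ) (x : X) : lq Z d n x ≤ lq Z e n x := by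
  induction n generalizing x with
  | zero => exact h x
  | succ n ih => exact sum_le_sum fun z _ => ih _

lemma lq_lin (α β : ℝ) (d e : X → ℝ) (n : ℕ) (x : X) :
    lq Z (fun y => α * d y + β * e y) n x = α * lq Z d n x + β * lq Z e n x := by
  induction n generalizing x with
  | zero => rfl
  | succ n ih => simp only [lq_succ, ih, sum_add_distrib, mul_sum]

lemma lq_le_mul {d e : X → ℝ} {κ : ℝ} (h : ∀ x, κ * d x ≤ e x) (n : ℕ) (x : X) :
    κ * lq Z d n x ≤ lq Z e n x := by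
  have h1 := lq_lin (Z := Z) κ 0 d d n x
  simp only [zero_mul, add_zero] at h1
  rw [← h1]
  exact lq_mono h n x

lemma sq_le_mul {d e : X → ℝ} {κ : ℝ} (h : ∀ x, κ * d x ≤ e x) (n : ℕ) (x : X) :
    κ * sq Z d n x ≤ sq Z e n x := by
  rw [Solver.sq, mul_sum]
  exact sum_le_sum fun j _ => lq_le_mul h j x

lemma lq_lq (d : X → ℝ) (j n : ℕ) (x : X) : lq Z (lq Z d j) n x = lq Z d (j + n) x := by
  induction n generalizing x with
  | zero => rfl
  | succ n ih => simp only [← add_assoc, lq_succ, ih]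

lemma lq_sq_le (hd : ∀ x, 0 ≤ d x) (q n : ℕ) (x : X) :
    lq Z (sq Z d q) n x ≤ sq Z d (q + n) x := by
  induction n generalizing x with
  | zero => exact le_rfl
  | succ n ih => exact (sum_le_sum fun z _ => ih _).trans (sum_sq_le hd _ x)

lemma lq_Z_le (hd : ∀ x, 0 ≤ d x) (n : ℕ) (z : ι) (x : X) :
    lq Z d n (Z z x) ≤ lq Z d (n + 1) x :=
  single_le_sum (f := fun z => lq Z d n (Z z x)) (fun _ _ => lq_nonneg hd _ _) (mem_univ z)

lemma lq_add_le' (h : ∀ x y, d (x + y) ≤ 2 * d x + 2 * d y) (n : ℕ) (x y : X) :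
    lq Z d n (x + y) ≤ 2 * lq Z d n x + 2 * lq Z d n y := by
  induction n generalizing x y with
  | zero => exact h x y
  | succ n ih =>
    simp only [lq_succ, map_add, mul_sum, ← sum_add_distrib]
    exact sum_le_sum fun z _ => ih _ _

lemma sq_add_le' (h : ∀ x y, d (x + y) ≤ 2 * d x + 2 * d y) (n : ℕ) (x y : X) :
    sq Z d n (x + y) ≤ 2 * sq Z d n x + 2 * sq Z d n y := by
  simp only [Solver.sq, mul_sum, ← sum_add_distrib]
  exact sum_le_sum fun j _ => lq_add_le' h j x y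

lemma abs_NB_le {φ : X →ₗ[ℝ] X →ₗ[ℝ] ℝ} {e : X → ℝ} {η : ℝ}
    (h : ∀ x y, |φ x y| ≤ η * (e x + e y)) (n : ℕ) (x y : X) :
    |NB Z φ n x y| ≤ η * (lq Z e n x + lq Z e n y) := by
  induction n generalizing x y with
  | zero => exact h x y
  | succ n ih =>
    rw [NB_succ, lq_succ, lq_succ, ← sum_add_distrib, mul_sum]
    exact (abs_sum_le_sum_abs _ _).trans (sum_le_sum fun z _ => ih _ _)

lemma abs_B_le_half (x y : X) : |b.B x y| ≤ 1 / 2 * (b.B x x + b.B y y) := by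
  have h := b.abs_B_le x y
  rw [← b.nr_sq, ← b.nr_sq]
  nlinarith [sq_nonneg (b.nr x - b.nr y)]

/-- Interpolation between three consecutive orders. -/
lemma lq_interp {Zs : ι → X →ₗ[ℝ] X} (adj : ∀ z x y, b.B (Z z x) y = b.B x (Zs z y))
    (hs : ∀ z x, b.B (Zs z x) (Zs z x) ≤ b.B (Z z x) (Z z x)) {ε : ℝ} (hε : 0 < ε) (n : ℕ) (x : X) :
    lq Z (fun x => b.B x x) (n + 1) x ≤ ε * lq Z (fun x => b.B x x) (n + 2) x +
      Fintype.card ι / ε * lq Z (fun x => b.B x x) n x := by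
  have h1 : ∀ y, lq Z (fun x => b.B x x) 1 y ≤ ε * lq Z (fun x => b.B x x) 2 y +
      Fintype.card ι / ε * b.B y y := fun y => by
    rw [lq_succ, lq_succ _ 1, mul_sum, div_eq_mul_inv, mul_assoc, ← nsmul_eq_mul, ← card_univ,
      ← sum_const, ← sum_add_distrib]
    refine sum_le_sum fun z _ => ?_
    have h2 := lq_Z_le (Z := Z) b.nonneg 0 z (Z z y)
    have h3 := hs z (Z z y)
    have h4 := b.B_le y (Zs z (Z z y))
    change b.B (Z z (Z z y)) (Z z (Z z y)) ≤ lq Z _ 1 (Z z y) at h2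
    change b.B (Z z y) (Z z y) ≤ _
    rw [adj]
    rw [← b.nr_sq (Zs z _)] at h3
    rw [← b.nr_sq y]
    have h5 : b.nr y * b.nr (Zs z (Z z y)) ≤ ε * b.nr (Zs z (Z z y)) ^ 2 + ε⁻¹ * b.nr y ^ 2 := by
      have h6 : 0 ≤ ε⁻¹ * (ε * b.nr (Zs z (Z z y)) - b.nr y) ^ 2 := by positivity
      have h7 : ε⁻¹ * (ε * b.nr (Zs z (Z z y)) - b.nr y) ^ 2 = ε * b.nr (Zs z (Z z y)) ^ 2 -
          2 * (b.nr y * b.nr (Zs z (Z z y))) + ε⁻¹ * b.nr y ^ 2 := by
        field_simp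
        ring
      nlinarith [mul_nonneg (b.nr_nonneg y) (b.nr_nonneg (Zs z (Z z y)))]
    nlinarith [mul_le_mul_of_nonneg_left (h3.trans h2) hε.le]
  rw [add_comm n 1, add_comm n 2, ← lq_lq, ← lq_lq, ← lq_lin]
  exact lq_mono h1 n x

section Main

variable {𝒞 : (ℝ → X →ₗ[ℝ] X) → Prop}

theorem main_w (hd : ∀ x, 0 ≤ d x) (had : ∀ A, 𝒞 A → ∀ z, 𝒞 (ad (Z z) A))
    (ht : ∀ A, 𝒞 A → Tame Z b d I A) {A : ℝ → X →ₗ[ℝ] X} (hA : 𝒞 A) {e : ℝ → X → ℝ}
    (h0 : ∀ ε : ℝ, 0 < ε → ∃ C0 : ℝ, 0 ≤ C0 ∧ ∀ s ∈ I, ∀ h,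
      e s h - ε * d h - C0 * b.B h h ≤ b.B (A s h) h) (n : ℕ) :
    ∀ ε : ℝ, 0 < ε → ∃ C : ℝ, 0 ≤ C ∧ ∀ s ∈ I, ∀ g,
      lq Z (e s) n g - ε * sq Z d (n + 1) g -
        C * (sq Z (fun x => b.B x x) (n + 1) g + sq Z d n g) ≤ NB Z b.B n (A s g) g := by
  induction n with
  | zero =>
    intro ε hε
    obtain ⟨C0, hC0, h0⟩ := h0 ε hε
    refine ⟨C0, hC0, fun s hs g => le_trans (le_of_eq ?_) (h0 s hs g)⟩
    simp [Solver.sq, lq]
  | succ n ih =>
    intro ε hε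
    set κ : ℝ := (Fintype.card ι : ℝ) with hκ
    have hκ0 : 0 ≤ κ := Nat.cast_nonneg _
    have hε1 : 0 < ε / (κ + 2) := by positivity
    obtain ⟨C1, hC1, h1⟩ := ih _ hε1
    choose C2 hC2 h2 using fun z => tame_all hd had ht n _ (had A hA z) _ hε1
    have hS : 0 ≤ ∑ z, C2 z := sum_nonneg fun z _ => hC2 z
    refine ⟨C1 + (∑ z, C2 z) * (κ + 1), by positivity, fun s hs g => ?_⟩
    set nn : X → ℝ := fun x => b.B x x with hnn
    have hn : ∀ x, 0 ≤ nn x := b.nonneg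
    have e1 : ∀ z, (lq Z (e s) n (Z z g) - ε / (κ + 2) * sq Z d (n + 1) (Z z g) -
        C1 * (sq Z nn (n + 1) (Z z g) + sq Z d n (Z z g))) -
        (ε / (κ + 2) * (sq Z d (n + 2) g + sq Z d (n + 1) (Z z g)) +
          (∑ z, C2 z) * (sq Z nn (n + 2) g + sq Z d (n + 1) g + sq Z nn (n + 1) (Z z g))) ≤
        NB Z b.B n (Z z (A s g)) (Z z g) := by
      intro z
      have e2 : Z z (A s g) = A s (Z z g) + ad (Z z) A s g := by rw [ad_apply]; abel
      rw [e2, map_add, LinearMap.add_apply]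
      have e3 : C2 z ≤ ∑ z, C2 z := single_le_sum (fun z _ => hC2 z) (mem_univ z)
      have e4 := (abs_le.1 (h2 z s hs g (Z z g))).1
      have e5 := h1 s hs (Z z g)
      have := sq_nonneg' (Z := Z) hn (n + 2) g
      have := sq_nonneg' (Z := Z) hd (n + 1) g
      have := sq_nonneg' (Z := Z) hn (n + 1) (Z z g)
      have e6 : C2 z * (sq Z nn (n + 2) g + sq Z d (n + 1) g + sq Z nn (n + 1) (Z z g)) ≤
        (∑ z, C2 z) * (sq Z nn (n + 2) g + sq Z d (n + 1) g + sq Z nn (n + 1) (Z z g)) := by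
        gcongr
      linarith
    rw [NB_succ]
    refine le_trans ?_ (sum_le_sum fun z _ => e1 z)
    simp only [sum_add_distrib, sum_sub_distrib, ← mul_sum, sum_const, card_univ, nsmul_eq_mul,
      ← hκ, ← lq_succ]
    have a1 := sum_sq_le (Z := Z) hd (n + 1) g
    have a2 := sum_sq_le (Z := Z) hn (n + 1) g
    have a3 := sum_sq_le (Z := Z) hd n g
    have p1 := sq_nonneg' (Z := Z) hd (n + 1 + 1) g
    have p3 := sq_nonneg' (Z := Z) hn (n + 1 + 1) g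
    have p4 := sq_nonneg' (Z := Z) hd (n + 1) g
    have hεe : ε = ε / (κ + 2) * (κ + 2) := by field_simp
    set e' := ε / (κ + 2)
    simp only [show n + 2 = n + 1 + 1 from rfl] at *
    rw [hεe]
    nlinarith [mul_le_mul_of_nonneg_left a1 hε1.le, mul_le_mul_of_nonneg_left a2 hC1,
      mul_le_mul_of_nonneg_left a3 hC1, mul_le_mul_of_nonneg_left a2 hS, mul_nonneg hS p4]

end Main

section Bilin

/-- Defect of the Leibniz rule. -/
def ad2 (Z : X →ₗ[ℝ] X) (B : ℝ → X →ₗ[ℝ] X →ₗ[ℝ] X) : ℝ → X →ₗ[ℝ] X →ₗ[ℝ] X :=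
  fun s => (B s).compr₂ Z - (B s).comp Z - (B s).compl₂ Z

lemma ad2_apply (Z : X →ₗ[ℝ] X) (B : ℝ → X →ₗ[ℝ] X →ₗ[ℝ] X) (s : ℝ) (f g : X) :
    ad2 Z B s f g = Z (B s f g) - B s (Z f) g - B s f (Z g) := rfl

variable (Z b d I) in
/-- The trilinear bound. -/
def Tri2 (q : ℕ) (B : ℝ → X →ₗ[ℝ] X →ₗ[ℝ] X) : Prop :=
  ∃ C : ℝ, 0 ≤ C ∧ ∀ s ∈ I, ∀ f g h,
    |b.B (B s f g) h| ≤ C * (√(sq Z (fun x => b.B x x) q f) * √(d g)) * √(d h) ∧
    |b.B (B s f g) h| ≤ C * (√(d f) * √(sq Z (fun x => b.B x x) q g)) * √(d h)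

variable (Z b d) in
/-- One of the two product bounds holds at the orders `i`, `j`. -/
def Sm2 (q : ℕ) (K : ℝ) (f g : X) (i j : ℕ) : Prop :=
  √(sq Z (fun x => b.B x x) (q + i) f) * √(sq Z d (j + 1) g) ≤ K ∨
    √(sq Z d (i + 1) f) * √(sq Z (fun x => b.B x x) (q + j) g) ≤ K

variable {q : ℕ} {K : ℝ} {f g : X} {i j : ℕ} {𝒟 : (ℝ → X →ₗ[ℝ] X →ₗ[ℝ] X) → Prop}

lemma Sm2.left (hd : ∀ x, 0 ≤ d x) (h : Sm2 Z b d q K f g (i + 1) j) (z : ι) :
    Sm2 Z b d q K (Z z f) g i j :=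
  h.imp (le_trans (mul_le_mul_of_nonneg_right
      (Real.sqrt_le_sqrt (sq_Z_le b.nonneg _ z f)) (Real.sqrt_nonneg _)))
    (le_trans (mul_le_mul_of_nonneg_right (Real.sqrt_le_sqrt (sq_Z_le hd _ z f))
      (Real.sqrt_nonneg _)))

lemma Sm2.right (hd : ∀ x, 0 ≤ d x) (h : Sm2 Z b d q K f g i (j + 1)) (z : ι) :
    Sm2 Z b d q K f (Z z g) i j :=
  h.imp (le_trans (mul_le_mul_of_nonneg_left
      (Real.sqrt_le_sqrt (sq_Z_le hd _ z g)) (Real.sqrt_nonneg _)))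
    (le_trans (mul_le_mul_of_nonneg_left (Real.sqrt_le_sqrt (sq_Z_le b.nonneg _ z g))
      (Real.sqrt_nonneg _)))

lemma sum_step (hd : ∀ x, 0 ≤ d x) {n : ℕ} {h : X} {T C : ι → ℝ} (hK : 0 ≤ K) (hC : ∀ z, 0 ≤ C z)
    (hT : ∀ z, |T z| ≤ C z * K * √(lq Z d n (Z z h))) :
    |∑ z, T z| ≤ (∑ z, C z) * K * √(lq Z d (n + 1) h) := by
  rw [sum_mul, sum_mul]
  refine (abs_sum_le_sum_abs _ _).trans (sum_le_sum fun z _ => (hT z).trans ?_)
  exact mul_le_mul_of_nonneg_left (Real.sqrt_le_sqrt (lq_Z_le hd n z h)) (mul_nonneg (hC z) hK)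

theorem low_all (hd : ∀ x, 0 ≤ d x) (had : ∀ B, 𝒟 B → ∀ z, 𝒟 (ad2 (Z z) B))
    (ht : ∀ B, 𝒟 B → Tri2 Z b d I q B) (n : ℕ) : ∀ B, 𝒟 B → ∃ C : ℝ, 0 ≤ C ∧ ∀ s ∈ I,
      ∀ f g h K, 0 ≤ K → (∀ i j, i + j ≤ n → Sm2 Z b d q K f g i j) →
        |NB Z b.B n (B s f g) h| ≤ C * K * √(lq Z d n h) := by
  induction n with
  | zero =>
    intro B hB
    obtain ⟨C, hC, h1⟩ := ht B hB
    refine ⟨C, hC, fun s hs f g h K _ hK => ?_⟩
    rcases hK 0 0 le_rfl with h2 | h2 <;> simp only [add_zero, zero_add, sq_one] at h2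
    · exact (h1 s hs f g h).1.trans (mul_le_mul_of_nonneg_right
        (mul_le_mul_of_nonneg_left h2 hC) (Real.sqrt_nonneg _))
    · exact (h1 s hs f g h).2.trans (mul_le_mul_of_nonneg_right
        (mul_le_mul_of_nonneg_left h2 hC) (Real.sqrt_nonneg _))
  | succ n ih =>
    intro B hB
    obtain ⟨C1, hC1, h1⟩ := ih B hB
    choose C2 hC2 h2 using fun z => ih _ (had B hB z)
    have hC : ∀ z, 0 ≤ C1 + C1 + C2 z := fun z => by linarith [hC2 z]
    refine ⟨∑ z, (C1 + C1 + C2 z), sum_nonneg fun z _ => hC z, fun s hs f g h K hK0 hK => ?_⟩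
    rw [NB_succ]
    refine sum_step hd hK0 hC fun z => ?_
    have e : Z z (B s f g) = B s (Z z f) g + B s f (Z z g) + ad2 (Z z) B s f g := by
      rw [ad2_apply]; abel
    rw [e, map_add, map_add, LinearMap.add_apply, LinearMap.add_apply]
    refine (abs_add_three _ _ _).trans ?_
    linarith [h1 s hs _ g (Z z h) K hK0 fun i j hij => (hK (i + 1) j (by omega)).left hd z,
      h1 s hs f _ (Z z h) K hK0 fun i j hij => (hK i (j + 1) (by omega)).right hd z,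
      h2 z s hs f g (Z z h) K hK0 fun i j hij => hK i j (by omega)]

theorem one_sided (hd : ∀ x, 0 ≤ d x) (had : ∀ B, 𝒟 B → ∀ z, 𝒟 (ad2 (Z z) B))
    (ht : ∀ B, 𝒟 B → Tri2 Z b d I q B) {B : ℝ → X →ₗ[ℝ] X →ₗ[ℝ] X} (hB : 𝒟 B) (n : ℕ) :
    ∃ C : ℝ, 0 ≤ C ∧ ∀ s ∈ I, ∀ f g h K, 0 ≤ K →
      (∀ i j, i + j ≤ n → i < n → Sm2 Z b d q K f g i j) →
        |NB Z b.B n (B s f g) h - NB Z (b.B.comp ((B s).flip g)) n f h| ≤
          C * K * √(lq Z d n h) := by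
  induction n with
  | zero => exact ⟨0, le_rfl, fun s hs f g h K _ _ => by simp [NB]⟩
  | succ n ih =>
    obtain ⟨C0, hC0, h0⟩ := ih
    obtain ⟨C1, hC1, h1⟩ := low_all hd had ht n B hB
    choose C2 hC2 h2 using fun z => low_all hd had ht n _ (had B hB z)
    have hC : ∀ z, 0 ≤ C0 + C1 + C2 z := fun z => by linarith [hC2 z]
    refine ⟨∑ z, (C0 + C1 + C2 z), sum_nonneg fun z _ => hC z, fun s hs f g h K hK0 hK => ?_⟩
    rw [NB_succ, NB_succ, ← sum_sub_distrib]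
    refine sum_step hd hK0 hC fun z => ?_
    have e : Z z (B s f g) = B s (Z z f) g + B s f (Z z g) + ad2 (Z z) B s f g := by
      rw [ad2_apply]; abel
    rw [e, map_add, map_add, LinearMap.add_apply, LinearMap.add_apply, add_sub_right_comm,
      add_sub_right_comm]
    refine (abs_add_three _ _ _).trans ?_
    linarith [h0 s hs _ g (Z z h) K hK0 fun i j hij hi =>
        (hK (i + 1) j (by omega) (by omega)).left hd z,
      h1 s hs f _ (Z z h) K hK0 fun i j hij => (hK i (j + 1) (by omega) (by omega)).right hd z,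
      h2 z s hs f g (Z z h) K hK0 fun i j hij => hK i j (by omega) (by omega)]

/-- The quadratic term at order `n`: small top order part plus lower order terms. -/
theorem quad_le (hd : ∀ x, 0 ≤ d x) (had : ∀ B, 𝒟 B → ∀ z, 𝒟 (ad2 (Z z) B))
    (ht : ∀ B, 𝒟 B → Tri2 Z b d I q B) {B : ℝ → X →ₗ[ℝ] X →ₗ[ℝ] X} (hB : 𝒟 B)
    (hs : ∀ s f g, B s f g = B s g f) {n : ℕ} (hn : 2 * q + 1 ≤ n) :
    ∃ C : ℝ, 0 ≤ C ∧ ∀ s ∈ I, ∀ (g h : X) (e : X → ℝ) (η : ℝ),
      (∀ x y, |b.B (B s x g) y| ≤ η * (e x + e y)) →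
      |NB Z b.B n (B s g g) h| ≤ 2 * η * (lq Z e n g + lq Z e n h) +
        C * (√(sq Z (fun x => b.B x x) n g) * √(sq Z d n g)) * √(lq Z d n h) := by
  obtain ⟨n, rfl⟩ : ∃ m, n = m + 1 := ⟨n - 1, by omega⟩
  obtain ⟨C0, hC0, h0⟩ := one_sided hd had ht hB n
  choose C2 hC2 h2 using fun z => low_all hd had ht n _ (had B hB z)
  have hC : ∀ z, 0 ≤ C0 + C0 + C2 z := fun z => by linarith [hC2 z]
  refine ⟨∑ z, (C0 + C0 + C2 z), sum_nonneg fun z _ => hC z, fun s hs' g h e η he => ?_⟩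
  set K := √(sq Z (fun x => b.B x x) (n + 1) g) * √(sq Z d (n + 1) g) with hKd
  have hK0 : 0 ≤ K := by positivity
  have hK : ∀ i j, i + j ≤ n + 1 → i ≤ n → j ≤ n → Sm2 Z b d q K g g i j := by
    intro i j hij hi hj
    by_cases h1 : q + i ≤ n + 1
    · exact Or.inl (mul_le_mul (Real.sqrt_le_sqrt (sq_mono b.nonneg h1 g))
        (Real.sqrt_le_sqrt (sq_mono hd (by omega) g)) (Real.sqrt_nonneg _) (Real.sqrt_nonneg _))
    · refine Or.inr ?_
      rw [mul_comm]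
      exact mul_le_mul (Real.sqrt_le_sqrt (sq_mono b.nonneg (by omega) g))
        (Real.sqrt_le_sqrt (sq_mono hd (by omega) g)) (Real.sqrt_nonneg _) (Real.sqrt_nonneg _)
  have h3 : |NB Z b.B (n + 1) (B s g g) h - 2 * NB Z (b.B.comp ((B s).flip g)) (n + 1) g h| ≤
      (∑ z, (C0 + C0 + C2 z)) * K * √(lq Z d (n + 1) h) := by
    rw [NB_succ, NB_succ, mul_sum, ← sum_sub_distrib]
    refine sum_step hd hK0 hC fun z => ?_
    have e : Z z (B s g g) = B s (Z z g) g + B s (Z z g) g + ad2 (Z z) B s g g := by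
      rw [ad2_apply, hs s g (Z z g)]; abel
    rw [e, map_add, map_add, LinearMap.add_apply, LinearMap.add_apply]
    have a1 := abs_le.1 (h0 s hs' _ g (Z z h) K hK0 fun i j hij hi =>
      (hK (i + 1) j (by omega) (by omega) (by omega)).left hd z)
    have a2 := abs_le.1 (h2 z s hs' g g (Z z h) K hK0 fun i j hij =>
      hK i j (by omega) (by omega) (by omega))
    rw [abs_le]
    constructor <;> linarith [a1.1, a1.2, a2.1, a2.2]
  have h4 := abs_le.1 (abs_NB_le (Z := Z) (φ := b.B.comp ((B s).flip g)) he (n + 1) g h)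
  have h5 := abs_le.1 h3
  rw [abs_le]
  constructor <;> linarith [h4.1, h4.2, h5.1, h5.2]

end Bilin

end Pool.Agent.MP_187b32_an.M7
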