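import Pool.Agent.MP_187b32_an.M7.Conc
import Pool.Agent.MP_187b32_an.M6.Final

/-! Assembly of the statement in the smooth class. -/

set_option autoImplicit false

open Set Filter Topology Pool.Agent.Boltz

noncomputable section

namespace Pool.Agent.MP_187b32_an.M7

open M6

lemma SmoothS.congr {s0 : ℝ} {H H' : ℝ × E3 × E3 → ℝ} (h : SmoothS s0 H)
    (e : ∀ q ∈ Ici s0 ×ˢ (univ : Set (E3 × E3)), H' q = H q) : SmoothS s0 H' :=
  ⟨h.smooth.congr e, fun s1 n q => (h.decay s1 n q).imp fun C hC s hs x V => by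
    rw [iteratedFDerivWithin_congr e (mk_mem_prod hs.1 trivial)]
    exact hC s hs x V⟩

theorem main2_of (h1 : M1Stmt) (h2 : BgStmt) (hc : CollStmt) (hi : IterStmt2) (hl : LimitStmt2)
    (h4 : PosStmt) (hσ : SigmaStmt) (hs : SvLimStmt) (ht : TimeStmt) (hch : ChangeStmt) :
    Stmt.Main2 := by
  obtain ⟨B, hB⟩ := h2 h1
  obtain ⟨Q, hQ⟩ := hc
  obtain ⟨ε0, p0, hε0, h4⟩ := h4
  obtain ⟨ε1, m, p1, hε1, h5⟩ := phys_of hσ
  obtain ⟨N0, ε2, hε2, hb⟩ := boundStmt Q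
  obtain ⟨N, ε', hε', hl⟩ := hl Q hQ (max p0 p1) (min ε0 ε1) (lt_min hε0 hε1)
  obtain ⟨A, s0, h, h', g, e, hA, hs0, I, Lg⟩ := hi Q B hB (max N N0) (min ε' ε2) (lt_min hε' hε2)
  have hk := hB.sm_k1.const_smul A
  have hkp : ∀ s, Per fun x => A * B.k1 s x := fun s i x => by simp only [BgD.k1, hB.per_C s i x]
  have hk0 : ∀ s x, 0 < A * B.k1 s x := fun s x => by
    have := hB.C_pos s x
    unfold BgD.k1
    positivity
  have I' : Iter Q B.fld (fun s x => A * B.k1 s x) s0 ε' N h h' g e :=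
    { I with
      small := fun j s hs x => (nA_mono (le_max_left _ _) _).trans
        ((I.small j s hs x).trans (min_le_left _ _))
      cauchy := fun s1 η hη => (I.cauchy s1 η hη).imp fun J hJ j hj l hl s hs =>
        have t := hJ j hj l hl s hs
        ⟨fun u hu x => (nA_mono (le_max_left _ _) _).trans (t.1 u hu x),
          fun u hu x => (nA_mono (le_max_left _ _) _).trans (t.2.1 u hu x),
          fun u hu x => (nA_mono (le_max_left _ _) _).trans (t.2.2 u hu x)⟩ }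
  obtain ⟨f, hf, hlim⟩ := hl B.fld _ s0 h h' g e hB.fldC hk hkp I'
  obtain ⟨b1, b2, b3⟩ := hb B.fld _ s0 _ _ h h' g e hB.fldC hk hkp hk0 (le_max_right _ _)
    (min_le_right _ _) I Lg
  obtain ⟨G, g1, g2, g3, g4⟩ := hs Q B.fld _ s0 _ _ h h' g e hB.fldC hk hkp I b1 b2 b3
  have P := h5 B hB A s0 f hA hs0 (hf.mono (min_le_right _ _) (le_max_right _ _))
    (h4 B.fld _ s0 f hB.fldC hk hkp hk0 (hf.mono (min_le_left _ _) (le_max_left _ _)))
  refine ⟨8, 1 / 4, Stmt.B8, by norm_num, by norm_num, nonCutoff_B8, _, _, 0, Tb_pos P.hr,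
    P.admissible', P.classical, hch _ _ _ _ _ _ P.hr (contDiff_uV hB) hB.cd_C P.pu P.pc P.cpos
      (SmoothS.congr (ht Q B hB A s0 G g1 g2 g4) fun q hq => ?_), P.implosion⟩
  rw [tendsto_nhds_unique (hlim q.1 hq.1 q.2.1 q.2.2) (g3 q.1 hq.1 q.2.1 q.2.2)]

end Pool.Agent.MP_187b32_an.M7
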