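import Pool.Agent.MP_187b32_an.M7.Spec2

/-! Module M7d: smoothness and decay are preserved by the change of variables. -/

set_option autoImplicit false

open Pool.Agent.Boltz Set Filter Topology
open scoped ContDiff Pointwise

noncomputable section

namespace Pool.Agent.MP_187b32_an.Change

/-- the slab `[0, T) × R^3 × R^3` -/
def Om (T : ℝ) : Set (ℝ × E3 × E3) := Ico 0 T ×ˢ univ

lemma uniq (T : ℝ) : UniqueDiffOn ℝ (Om T) := (uniqueDiffOn_Ico 0 T).prod uniqueDiffOn_univ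

variable {T T' : ℝ} {G G' : Type} [NormedAddCommGroup G] [NormedSpace ℝ G] [NormedAddCommGroup G']
  [NormedSpace ℝ G']

lemma mem_Om (hT : T' < T) {t : ℝ} (ht : t ∈ Icc 0 T') (y : E3 × E3) : (t, y) ∈ Om T :=
  ⟨⟨ht.1, ht.2.trans_lt hT⟩, trivial⟩

/-- the derivative of order `i` grows at most linearly in `v` -/
def Bd (T T' : ℝ) (φ : ℝ × E3 × E3 → G) (i : ℕ) : Prop :=
  ∃ C : ℝ, 0 ≤ C ∧ ∀ t ∈ Icc 0 T', ∀ x v : E3,
    ‖iteratedFDerivWithin ℝ i φ (Om T) (t, x, v)‖ ≤ C * (1 + ‖v‖)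

/-- the derivative of order `i` is bounded -/
def Bd0 (T T' : ℝ) (φ : ℝ × E3 × E3 → G) (i : ℕ) : Prop :=
  ∃ C : ℝ, 0 ≤ C ∧ ∀ t ∈ Icc 0 T', ∀ x v : E3,
    ‖iteratedFDerivWithin ℝ i φ (Om T) (t, x, v)‖ ≤ C

lemma Bd0.bd {φ : ℝ × E3 × E3 → G} {i : ℕ} (h : Bd0 T T' φ i) : Bd T T' φ i := by
  obtain ⟨C, hC, h⟩ := h
  exact ⟨C, hC, fun t ht x v => (h t ht x v).trans
    (le_mul_of_one_le_right hC (by linarith [norm_nonneg v]))⟩

lemma shift {φ : ℝ × E3 × E3 → G} {y : E3 × E3} (h : ∀ p, φ (p + (0, y)) = φ p) (i : ℕ)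
    (p : ℝ × E3 × E3) :
    iteratedFDerivWithin ℝ i φ (Om T) (p + (0, y)) = iteratedFDerivWithin ℝ i φ (Om T) p := by
  have h1 := iteratedFDerivWithin_comp_add_right (𝕜 := ℝ) (f := φ) (s := Om T) i (0, y) p
  have h2 : ((0, y) : ℝ × E3 × E3) +ᵥ Om T = Om T := by
    ext q
    rw [mem_vadd_set_iff_neg_vadd_mem]
    simp [Om]
  rw [h2] at h1
  rw [← h1, funext h]

lemma bd0_of_per (hT : T' < T) {ψ : ℝ × E3 → G}
    (hψ : ContDiffOn ℝ ∞ (fun p : ℝ × E3 × E3 => ψ (p.1, p.2.1)) (Om T))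
    (hp : ∀ t, Per fun x => ψ (t, x)) (i : ℕ) :
    Bd0 T T' (fun p : ℝ × E3 × E3 => ψ (p.1, p.2.1)) i := by
  have hc := hψ.continuousOn_iteratedFDerivWithin (m := i) (by exact_mod_cast le_top) (uniq T)
  have hK : IsCompact (Icc 0 T' ×ˢ Metric.closedBall (0 : E3) (3 * |(1 : ℝ)|) ×ˢ
      ({0} : Set E3)) := isCompact_Icc.prod ((isCompact_closedBall _ _).prod isCompact_singleton)
  obtain ⟨C, hC⟩ := hK.exists_bound_of_continuousOn (hc.mono fun p hp => mem_Om hT hp.1 p.2)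
  refine ⟨max C 0, le_max_right _ _, fun t ht x v => le_trans ?_ (le_max_left _ _)⟩
  have h1 : Per fun x => iteratedFDerivWithin ℝ i (fun p : ℝ × E3 × E3 => ψ (p.1, p.2.1)) (Om T)
      (t, x, 0) := fun j x => by
    have := shift (T := T) (φ := fun p : ℝ × E3 × E3 => ψ (p.1, p.2.1)) (y := (ev j, 0))
      (fun p => by simpa using hp p.1 j p.2.1) i (t, x, 0)
    simpa using this
  obtain ⟨y, hy, e⟩ := h1.exists_mem_cube 0 x
  have h2 := shift (T := T) (φ := fun p : ℝ × E3 × E3 => ψ (p.1, p.2.1)) (y := (0, v))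
    (fun p => by simp) i (t, x, 0)
  simp only [Prod.mk_add_mk, add_zero, zero_add] at h2
  rw [h2, ← e]
  exact hC (t, y, 0) ⟨ht, cube_subset_closedBall 0 1 hy, rfl⟩

lemma bd0_clm (hT : T' < T) (L : ℝ × E3 × E3 →L[ℝ] G) {i : ℕ} (hi : 1 ≤ i) : Bd0 T T' L i := by
  obtain ⟨j, rfl⟩ := Nat.exists_eq_add_of_le' hi
  refine ⟨‖L‖, norm_nonneg L, fun t ht x v => ?_⟩
  have hm := mem_Om hT ht (x, v)
  rw [← norm_iteratedFDerivWithin_fderivWithin (uniq T) hm,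
    iteratedFDerivWithin_congr (f := fun _ => L) (fun q hq => L.fderivWithin (uniq T q hq)) hm]
  rcases eq_or_ne j 0 with rfl | hj
  · rw [norm_iteratedFDerivWithin_zero]
  · rw [iteratedFDerivWithin_const_of_ne hj]
    simp

lemma bd_vel (hT : T' < T) (i : ℕ) : Bd T T' (fun p : ℝ × E3 × E3 => p.2.2) i := by
  rcases Nat.eq_zero_or_pos i with rfl | hi
  · exact ⟨1, zero_le_one, fun t _ x v => by simp⟩
  · exact (bd0_clm hT ((ContinuousLinearMap.snd ℝ E3 E3).comp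
      (ContinuousLinearMap.snd ℝ ℝ (E3 × E3))) hi).bd

lemma Bd.sub (hT : T' < T) {φ ψ : ℝ × E3 × E3 → G} (hφ : ContDiffOn ℝ ∞ φ (Om T))
    (hψ : ContDiffOn ℝ ∞ ψ (Om T)) {i : ℕ} (h : Bd T T' φ i) (h' : Bd T T' ψ i) :
    Bd T T' (fun p => φ p - ψ p) i := by
  obtain ⟨C, hC, h⟩ := h
  obtain ⟨C', hC', h'⟩ := h'
  refine ⟨C + C', by positivity, fun t ht x v => ?_⟩
  have hm := mem_Om hT ht (x, v)
  have e := iteratedFDerivWithin_sub_apply (i := i) ((hφ _ hm).of_le (by exact_mod_cast le_top))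
    ((hψ _ hm).of_le (by exact_mod_cast le_top)) (uniq T) hm
  rw [show (fun p => φ p - ψ p) = φ - ψ from rfl, e, add_mul]
  exact (norm_sub_le _ _).trans (add_le_add (h t ht x v) (h' t ht x v))

lemma Bd.prod (hT : T' < T) {φ : ℝ × E3 × E3 → G} {ψ : ℝ × E3 × E3 → G'}
    (hφ : ContDiffOn ℝ ∞ φ (Om T)) (hψ : ContDiffOn ℝ ∞ ψ (Om T)) {i : ℕ} (h : Bd T T' φ i)
    (h' : Bd T T' ψ i) : Bd T T' (fun p => (φ p, ψ p)) i := by
  obtain ⟨C, hC, h⟩ := h
  obtain ⟨C', hC', h'⟩ := h'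
  refine ⟨C + C', by positivity, fun t ht x v => ?_⟩
  have hm := mem_Om hT ht (x, v)
  rw [iteratedFDerivWithin_prodMk (hφ _ hm) (hψ _ hm) (uniq T) hm (by exact_mod_cast le_top),
    ContinuousMultilinearMap.opNorm_prod, add_mul]
  exact max_le ((h t ht x v).trans (le_add_of_nonneg_right (by positivity)))
    ((h' t ht x v).trans (le_add_of_nonneg_left (by positivity)))

lemma bd_smul (hT : T' < T) {a : ℝ × E3 × E3 → ℝ} {φ : ℝ × E3 × E3 → G}
    (ha : ContDiffOn ℝ ∞ a (Om T)) (hφ : ContDiffOn ℝ ∞ φ (Om T)) (h : ∀ i, Bd0 T T' a i)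
    (h' : ∀ i, Bd T T' φ i) (n : ℕ) : Bd T T' (fun p => a p • φ p) n := by
  choose C hC h using h
  choose C' hC' h' using h'
  refine ⟨∑ i ∈ Finset.range (n + 1), (n.choose i : ℝ) * C i * C' (n - i),
    Finset.sum_nonneg fun i _ => mul_nonneg (mul_nonneg (Nat.cast_nonneg _) (hC i)) (hC' _),
    fun t ht x v => ?_⟩
  refine (norm_iteratedFDerivWithin_smul_le ha hφ (uniq T) (mem_Om hT ht (x, v))
    (by exact_mod_cast le_top)).trans ?_
  rw [Finset.sum_mul]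
  refine Finset.sum_le_sum fun i _ => ?_
  rw [mul_assoc _ (C' _)]
  exact mul_le_mul (mul_le_mul_of_nonneg_left (h i t ht x v) (Nat.cast_nonneg _)) (h' _ t ht x v)
    (norm_nonneg _) (mul_nonneg (Nat.cast_nonneg _) (hC i))

open M6

lemma cd_sOf {r s0 : ℝ} (hr : 0 < r) :
    ContDiffOn ℝ ∞ (fun p : ℝ × E3 × E3 => sOf r s0 p.1) (Om (Tb r s0)) := fun p hp => by
  have h0 : 0 < r * (Tb r s0 - p.1) := mul_pos hr (sub_pos.2 hp.1.2)
  exact (((contDiffAt_const.mul (contDiffAt_const.sub contDiffAt_fst)).log h0.ne').neg.div_const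
    r).contDiffWithinAt

theorem changeStmt : ChangeStmt := by
  intro r s0 A u c H hr hu hc pu pc hpos hH
  have h1 := cd_sOf (s0 := s0) hr
  have h2 : ContDiffOn ℝ ∞ (fun p : ℝ × E3 × E3 => p.2.1) (Om (Tb r s0)) := by fun_prop
  have h3 : ContDiffOn ℝ ∞ (fun p : ℝ × E3 × E3 => p.2.2) (Om (Tb r s0)) := by fun_prop
  have h4 := hu.comp_contDiffOn (h1.prodMk h2)
  have h5 := (hc.comp_contDiffOn (h1.prodMk h2)).inv fun p _ => (hpos _).ne'
  have h6 := h5.smul (h3.sub h4)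
  set Φ : ℝ × E3 × E3 → ℝ × E3 × E3 := fun p => (sOf r s0 p.1, p.2.1,
    (c (sOf r s0 p.1, p.2.1))⁻¹ • (p.2.2 - u (sOf r s0 p.1, p.2.1))) with hΦ
  have h7 : ContDiffOn ℝ ∞ Φ (Om (Tb r s0)) := h1.prodMk (h2.prodMk h6)
  have h8 : MapsTo Φ (Om (Tb r s0)) (Ici s0 ×ˢ univ) := fun p hp => ⟨le_sOf hr hp.1, trivial⟩
  have h9 : ContDiffOn ℝ ∞ (H ∘ Φ) (Om (Tb r s0)) := hH.smooth.comp h7 h8
  refine ⟨contDiffOn_const.mul h9, fun T' hT n q => ?_⟩
  have b1 : ∀ i, 1 ≤ i → Bd (Tb r s0) T' Φ i := fun i hi =>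
    Bd.prod hT h1 (h2.prodMk h6)
      (bd0_of_per hT (ψ := fun p => sOf r s0 p.1) h1 (fun _ _ _ => rfl) i).bd
      (Bd.prod hT h2 h6 (bd0_clm hT ((ContinuousLinearMap.fst ℝ E3 E3).comp
        (ContinuousLinearMap.snd ℝ ℝ (E3 × E3))) hi).bd
        (bd_smul hT h5 (h3.sub h4)
          (bd0_of_per hT (ψ := fun p => (c (sOf r s0 p.1, p.2))⁻¹) h5
            fun t => (pc (sOf r s0 t)).map fun a => a⁻¹)
          (fun j => Bd.sub hT h3 h4 (bd_vel hT j)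
            (bd0_of_per hT (ψ := fun p => u (sOf r s0 p.1, p.2)) h4
              (fun t => pu (sOf r s0 t)) j).bd) i))
  choose! D hD0 hD using b1
  choose C hC using fun i => hH.decay (sOf r s0 T') i (q + n)
  obtain ⟨M, hM0, hM⟩ := exists_bound_of_per (ψ := fun s x => ‖u (s, x)‖ + c (s, x))
    (hu.continuous.norm.add hc.continuous)
    (fun s => (pu s).map₂ (pc s) fun a b => ‖a‖ + b) (isCompact_Icc (a := s0) (b := sOf r s0 T'))
  set D1 : ℝ := 1 + ∑ i ∈ Finset.range (n + 1), |D i| with hD1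
  set C1 : ℝ := ∑ i ∈ Finset.range (n + 1), |C i| with hC1
  have hD2 : 0 ≤ ∑ i ∈ Finset.range (n + 1), |D i| := Finset.sum_nonneg fun i _ => abs_nonneg _
  have hC2 : 0 ≤ C1 := Finset.sum_nonneg fun i _ => abs_nonneg _
  refine ⟨|A| * (n.factorial * C1 * D1 ^ n * (1 + M) ^ (q + n)), fun t ht x v => ?_⟩
  have hm := mem_Om hT ht (x, v)
  have hs : sOf r s0 t ∈ Icc s0 (sOf r s0 T') := ⟨le_sOf hr hm.1, sOf_mono hr ht.2 hT⟩
  set V : E3 := (c (sOf r s0 t, x))⁻¹ • (v - u (sOf r s0 t, x)) with hV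
  have hv1 : 1 ≤ 1 + ‖v‖ := by linarith [norm_nonneg v]
  have hV0 : 0 < (1 + ‖V‖) ^ (q + n) := by positivity
  have k1 := norm_iteratedFDerivWithin_comp_le (n := n) hH.smooth h7 (by exact_mod_cast le_top)
    ((uniqueDiffOn_Ici s0).prod uniqueDiffOn_univ) (uniq _) h8 hm
    (C := C1 / (1 + ‖V‖) ^ (q + n)) (D := D1 * (1 + ‖v‖)) (fun i hi => ?_) (fun i hi hi' => ?_)
  · have k2 : 1 + ‖v‖ ≤ (1 + M) * (1 + ‖V‖) := by
      have e : v = u (sOf r s0 t, x) + c (sOf r s0 t, x) • V := by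
        simp [hV, smul_smul, (hpos _).ne']
      have k3 := norm_add_le (u (sOf r s0 t, x)) (c (sOf r s0 t, x) • V)
      rw [← e, norm_smul, Real.norm_of_nonneg (hpos _).le] at k3
      have k4 := (le_abs_self _).trans (hM _ hs x)
      nlinarith [norm_nonneg V, norm_nonneg (u (sOf r s0 t, x)), hpos (sOf r s0 t, x)]
    have k5 : (1 + ‖v‖) ^ (q + n) ≤ (1 + M) ^ (q + n) * (1 + ‖V‖) ^ (q + n) := by
      rw [← mul_pow]
      gcongr
    have e := iteratedFDerivWithin_const_smul_apply (i := n) (a := A)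
      ((h9 _ hm).of_le (by exact_mod_cast le_top)) (uniq _) hm
    change (1 + ‖v‖) ^ q * ‖iteratedFDerivWithin ℝ n (A • (H ∘ Φ)) (Om (Tb r s0)) (t, x, v)‖ ≤ _
    rw [e, norm_smul, Real.norm_eq_abs, mul_left_comm]
    refine mul_le_mul_of_nonneg_left ?_ (abs_nonneg A)
    calc _ ≤ (1 + ‖v‖) ^ q * (n.factorial * (C1 / (1 + ‖V‖) ^ (q + n)) * (D1 * (1 + ‖v‖)) ^ n) :=
          mul_le_mul_of_nonneg_left k1 (by positivity)
      _ = n.factorial * C1 * D1 ^ n * ((1 + ‖v‖) ^ (q + n) / (1 + ‖V‖) ^ (q + n)) := by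
          rw [mul_pow, pow_add (1 + ‖v‖)]; ring
      _ ≤ _ := mul_le_mul_of_nonneg_left ((div_le_iff₀ hV0).2 k5) (by positivity)
  · rw [le_div_iff₀ hV0, mul_comm]
    exact ((hC i _ hs x V).trans (le_abs_self _)).trans (Finset.single_le_sum
      (f := fun i => |C i|) (fun j _ => abs_nonneg _) (Finset.mem_range.2 (Nat.lt_succ_of_le hi)))
  · have k2 : D i ≤ D1 := by
      have := Finset.single_le_sum (f := fun i => |D i|) (fun j _ => abs_nonneg _)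
        (Finset.mem_range.2 (Nat.lt_succ_of_le hi'))
      linarith [le_abs_self (D i)]
    refine ((hD i hi t ht x v).trans (mul_le_mul_of_nonneg_right k2 (by positivity))).trans
      (le_self_pow₀ ?_ (by omega))
    exact one_le_mul_of_one_le_of_one_le (by linarith) hv1

end Pool.Agent.MP_187b32_an.Change
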