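import Pool.Agent.MP_187b32_an.M7.Spec
import Pool.Agent.MP_187b32_an.M6.Phys
import Pool.Agent.MP_187b32_an.Stmt2

/-! Module M7 (smoothness of the solution): the four steps. -/

set_option autoImplicit false

open Pool.Agent.Boltz Set Filter Topology
open scoped ContDiff

noncomputable section

namespace Pool.Agent.MP_187b32_an

/-- Bounds of all orders, uniform along the iteration and on compact time intervals. -/
def AllBd (s0 : ℝ) (h : ℕ → ℝ → E3 → SV) : Prop :=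
  ∀ (s1 : ℝ) (n : ℕ) (u : List (Fin 3)), ∃ C : ℝ, ∀ᶠ j in atTop, ∀ s ∈ Icc s0 s1, ∀ x,
    nA n (dXw u (h j s) x) ≤ C

/-- The time derivative prescribed by the equation. -/
def rhs (Q : CollOp) (F : ℝ → Fld) (k : ℝ → E3 → ℝ) (G : ℝ → E3 → SV) (s : ℝ) (x : E3) : SV :=
  (F s).src x + (k s x / 2) • Q.G (G s x) (G s x) - (F s).tr (G s) x - k s x • Q.L (G s x)

/-- Smooth on `[s0, ∞) × R^3 × R^3` with rapid decay in `V` of all derivatives. -/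
structure SmoothS (s0 : ℝ) (H : ℝ × E3 × E3 → ℝ) : Prop where
  smooth : ContDiffOn ℝ ∞ H (Ici s0 ×ˢ univ)
  decay : ∀ (s1 : ℝ) (n q : ℕ), ∃ C : ℝ, ∀ s ∈ Icc s0 s1, ∀ x V : E3,
    (1 + ‖V‖) ^ q * ‖iteratedFDerivWithin ℝ n H (Ici s0 ×ˢ univ) (s, x, V)‖ ≤ C

/-- M7a: propagation of regularity along the iteration. -/
def BoundStmt : Prop :=
  ∀ Q : CollOp, ∃ (N0 : ℕ) (ε0 : ℝ), 0 < ε0 ∧ ∀ (F : ℝ → Fld) (k : ℝ → E3 → ℝ) (s0 ε : ℝ) (N : ℕ)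
    (h h' g e : ℕ → ℝ → E3 → SV), FldC F → SmC k → (∀ s, Per (k s)) → (∀ s x, 0 < k s x) →
    N0 ≤ N → ε ≤ ε0 → Iter Q F k s0 ε N h h' g e → Lag F s0 N h g e →
    AllBd s0 h ∧ AllBd s0 g ∧ AllBd s0 e

/-- M7b: the limit in Schwartz space. -/
def SvLimStmt : Prop :=
  ∀ (Q : CollOp) (F : ℝ → Fld) (k : ℝ → E3 → ℝ) (s0 ε : ℝ) (N : ℕ)
    (h h' g e : ℕ → ℝ → E3 → SV), FldC F → SmC k → (∀ s, Per (k s)) →
    Iter Q F k s0 ε N h h' g e → AllBd s0 h → AllBd s0 g → AllBd s0 e →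
    ∃ G : ℝ → E3 → SV, SmC G ∧ (∀ s, Per (G s)) ∧
      (∀ s, s0 ≤ s → ∀ x V, Tendsto (fun j => h j s x V) atTop (𝓝 (G s x V))) ∧
      ∀ s, s0 < s → ∀ x, HD (fun t => G t x) (rhs Q F k G s x) s

/-- M7c: all time derivatives. -/
def TimeStmt : Prop :=
  ∀ (Q : CollOp) (B : BgD), B.Ok → ∀ (A s0 : ℝ) (G : ℝ → E3 → SV), SmC G → (∀ s, Per (G s)) →
    (∀ s, s0 < s → ∀ x, HD (fun t => G t x) (rhs Q B.fld (fun s x => A * B.k1 s x) G s x) s) →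
    SmoothS s0 fun q => sqM q.2.2 * (sqM q.2.2 + G q.1 q.2.1 q.2.2)

/-- M7d: the change of variables. -/
def ChangeStmt : Prop :=
  ∀ (r s0 A : ℝ) (u : ℝ × E3 → E3) (c : ℝ × E3 → ℝ) (H : ℝ × E3 × E3 → ℝ), 0 < r →
    ContDiff ℝ ∞ u → ContDiff ℝ ∞ c → (∀ s, Per fun x => u (s, x)) → (∀ s, Per fun x => c (s, x)) →
    (∀ p, 0 < c p) → SmoothS s0 H →
    Stmt.Smooth (M6.Tb r s0) fun t => M6.Fs A u c H (M6.sOf r s0 t)

end Pool.Agent.MP_187b32_an
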