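import Pool.Agent.MP_187b32_an.M7.Gron
import Pool.Agent.MP_187b32_an.M7.Spec2
import Pool.Agent.MP_187b32_an.Solver.Final
import Pool.Agent.MP_187b32_an.Alg.Need

/-! Module M7a: bounds of all orders along the iteration. -/

set_option autoImplicit false

open Set Filter Topology Finset Pool.Agent.Boltz

noncomputable section

namespace Pool.Agent.MP_187b32_an.M7

open Solver

lemma der_lq (n : ℕ) : ∀ φ φ' : Vf, SmD φ.f φ'.f → ∀ s,
    HasDerivAt (fun t => lq ZX nX n (φ.at t)) (2 * NB ZX bX.B n (φ'.at s) (φ.at s)) s := by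
  induction n with
  | zero =>
    intro φ φ' h s
    refine ((h.ip h).hasDerivAt_tint s).congr_deriv ?_
    change _ = 2 * tint fun x => ip (φ'.f s x) (φ.f s x)
    rw [← tint_const_mul]
    exact tint_congr fun x => by rw [ip_comm (φ.f s x)]; ring
  | succ n ih =>
    intro φ φ' h s
    simp only [lq_succ, NB_succ, ← Vf.Z_at, mul_sum]
    refine HasDerivAt.fun_sum fun z _ => ih _ _ ?_ s
    rcases z with i | j
    · exact h.dX i
    · exact h.clm _

/-- The weighted dissipation. -/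
def ek (k : Cf) (d : SV → ℝ) (s : ℝ) (G : XS) : ℝ := tint fun x => k.c s x * d (G.1 x)

variable {d : SV → ℝ} {k : Cf}

lemma cont_lq (hd : Continuous d) (n : ℕ) : ∀ φ : Vf,
    Continuous fun s => lq ZX (ek k d s) n (φ.at s) := by
  induction n with
  | zero => exact fun φ => continuous_tint (k.sm.cont.mul (hd.comp φ.sm.cont))
  | succ n ih =>
    intro φ
    simp only [lq_succ, ← Vf.Z_at]
    exact continuous_finsetSum _ fun z _ => ih _

lemma cont_ek (hd : Continuous d) (s : ℝ) (G : XS) : Continuous fun x => k.c s x * d (G.1 x) :=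
  (k.sm.cont_slice s).mul (hd.comp (XS.sm G).cont)

/-- Bounds of all orders in the scale. -/
def Bd (a a' : ℝ) (x : ℕ → ℝ → XS) : Prop :=
  ∀ n, ∃ C, ∀ j, ∀ s ∈ Icc a a', sq ZX nX n (x j s) ≤ C

variable {a a' : ℝ} {x y : ℕ → ℝ → XS}

lemma bd_iff : Bd a a' x ↔ ∀ n, ∃ C, ∀ j, ∀ s ∈ Icc a a', (Solver.lev ZX bX n).nr (x j s) ≤ C := by
  refine ⟨fun h n => ?_, fun h n => ?_⟩
  · obtain ⟨C, hC⟩ := h (n + 1)
    exact ⟨√C, fun j s hs => Real.le_sqrt_of_sq_le ((lev_nr_sq _ _ _ _).trans_le (hC j s hs))⟩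
  · obtain ⟨C, hC⟩ := h n
    refine ⟨C ^ 2, fun j s hs => (sq_mono bX.nonneg n.le_succ _).trans ?_⟩
    rw [← lev_nr_sq]
    exact pow_le_pow_left₀ (PD.nr_nonneg _ _) (hC j s hs) 2

lemma Bd.congr (h : Bd a a' x) (e : ∀ j, ∀ s ∈ Icc a a', y j s = x j s) : Bd a a' y :=
  fun n => (h n).imp fun C hC j s hs => by rw [e j s hs]; exact hC j s hs

lemma Bd.comp (h : Bd a a' x) (σ : ℕ → ℕ) : Bd a a' fun j => x (σ j) :=
  fun n => (h n).imp fun _ hC j => hC (σ j)

lemma Bd.add (h : Bd a a' x) (h' : Bd a a' y) : Bd a a' fun j s => x j s + y j s :=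
  bd_iff.2 fun n => by
    obtain ⟨C, hC⟩ := bd_iff.1 h n
    obtain ⟨C', hC'⟩ := bd_iff.1 h' n
    exact ⟨C + C', fun j s hs => (PD.nr_add_le _ _ _).trans (add_le_add (hC j s hs) (hC' j s hs))⟩

lemma Bd.sub (h : Bd a a' x) (h' : Bd a a' y) : Bd a a' fun j s => x j s - y j s :=
  bd_iff.2 fun n => by
    obtain ⟨C, hC⟩ := bd_iff.1 h n
    obtain ⟨C', hC'⟩ := bd_iff.1 h' n
    exact ⟨C + C', fun j s hs => (PD.nr_sub_le _ _ _).trans (add_le_add (hC j s hs) (hC' j s hs))⟩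

lemma bd_vf (φ : Vf) : Bd a a' fun _ => φ.at :=
  bd_iff.2 fun n => (φ.bdd_lev a a' n).imp fun _ hC _ => hC

lemma bd_fin {m : ℕ} (φ : Fin m → Vf) {c : ℕ → ℝ → Fin m → ℝ} {C : ℝ}
    (hc : ∀ j, ∀ s ∈ Icc a a', ∀ i, |c j s i| ≤ C) :
    Bd a a' fun j s => ∑ i, c j s i • (φ i).at s :=
  bd_iff.2 fun n => by
    choose K hK using fun i => (φ i).bdd_lev a a' n
    refine ⟨∑ i, C * K i, fun j s hs => ?_⟩
    rw [PD.nr, map_sum]
    refine (norm_sum_le _ _).trans (sum_le_sum fun i _ => ?_)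
    exact (PD.nr_smul _ _ _).trans_le (mul_le_mul (hc j s hs i) (hK i s hs) (PD.nr_nonneg _ _)
      ((abs_nonneg _).trans (hc j s hs i)))

lemma Bd.nA_le (h : Bd a a' x) (n : ℕ) (u : List (Fin 3)) :
    ∃ C, ∀ j, ∀ s ∈ Icc a a', ∀ y, nA n (dXw u (x j s).1 y) ≤ C := by
  obtain ⟨C, hC⟩ := h (n + 3 + 1 + u.length)
  refine ⟨KS * C, fun j s hs y => ?_⟩
  rw [← DW_val]
  exact (nA_le_sq n _ y).trans (mul_le_mul_of_nonneg_left ((sq_DW_le u _ _).trans (hC j s hs))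
    KS_nonneg)

lemma lq_le_of_nA (m : ℕ) : ∀ (G : XS) (C : ℝ),
    (∀ u : List (Fin 3), u.length ≤ m → ∀ y, nA m (dXw u G.1 y) ≤ C) →
    lq ZX nX m G ≤ 6 ^ m * C := by
  induction m with
  | zero =>
    intro G C h
    rw [pow_zero, one_mul]
    refine (le_abs_self _).trans (abs_tint_le_const fun y => ?_)
    rw [abs_of_nonneg (ip_self_nonneg _), ← nA_zero]
    exact h [] le_rfl y
  | succ m ih =>
    intro G C h
    rw [lq_succ]
    refine (sum_le_card_nsmul _ _ (6 ^ m * C) fun z _ => ih _ _ fun u hu y => ?_).trans_eq (by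
      simp only [card_univ, Fintype.card_sum, Fintype.card_fin, nsmul_eq_mul]
      push_cast
      ring)
    rcases z with i | i
    · exact (nA_mono m.le_succ _).trans (h (i :: u) (Nat.succ_le_succ hu) y)
    · have e : dXw u (ZX (Sum.inr i) G).1 y = ap i (dXw u G.1 y) :=
        congrFun (dXw_clm (XS.sm G) (ap i) u) y
      rw [e]
      exact (nA_ap_le m i _).trans (h u (hu.trans m.le_succ) y)

theorem bound_gen {P0 P1 : (SV →L[ℝ] SV) → Prop} (hdc : Continuous d) (hd : ∀ f, 0 ≤ d f)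
    (hadd : ∀ f g, d (f + g) ≤ 2 * d f + 2 * d g) {p : ℕ} {Cd : ℝ} (hCd : 0 ≤ Cd)
    (hup : ∀ f, d f ≤ Cd * nA p f)
    (h0 : ∀ B, P0 B → V0 d B ∧ ∀ j, P0 (adV j B)) (h1 : ∀ B, P1 B → V1 d B ∧ ∀ j, P1 (adV j B))
    {L : SV →L[ℝ] SV} (hL1 : P1 L) (hL : ∀ h, d h - ip h h ≤ ip (L h) h)
    {A : ℝ → XS →ₗ[ℝ] XS} (hA : Adm P0 P1 d A) (hk : ∀ s x, 0 < k.c s x) {n0 : ℕ}
    {h h' : ℕ → Vf} (hh : ∀ j, SmD (h j).f (h' j).f) {r f N : ℕ → ℝ → XS}
    (eqn : ∀ j, ∀ s ∈ Icc a a',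
      (h' (j + 1)).at s + (A + tm k L none) s ((h (j + 1)).at s) = N j s + f j s)
    (hN : ∀ n, n0 ≤ n → ∃ C : ℝ, 0 ≤ C ∧ ∀ j, ∀ s ∈ Icc a a', ∀ y,
      |NB ZX bX.B n (N j s) y| ≤
        1 / 16 * (lq ZX (ek k d s) n ((h j).at s + r j s) + lq ZX (ek k d s) n y) +
        C * (√(sq ZX nX n ((h j).at s + r j s)) * √(sq ZX (dd d) n ((h j).at s + r j s))) *
          √(lq ZX (dd d) n y))
    (hr : Bd a a' r) (hf : Bd a a' f) (init : Bd a a fun j => (h j).at)
    (base : n0 = 0 ∨ ∃ C, ∀ j, ∀ s ∈ Icc a a', sq ZX nX (p + 1 + n0) ((h j).at s) ≤ C) :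
    Bd a a' fun j => (h j).at := by
  obtain ⟨κ, hκ, hκ'⟩ := exists_lower_bound_of_per k.sm.cont k.per (isCompact_Icc (a := a)
    (b := a')) fun s _ => hk s
  obtain ⟨M, hM, hM'⟩ := k.bound a a'
  have hdG : ∀ G : XS, Continuous fun x => d (G.1 x) := fun G => hdc.comp (XS.sm G).cont
  refine Reg.bound (Z := ZX) (b := bX) (d := dd d) (e := ek k d) (κ := κ) (M := M * Cd)
    (n0 := n0) (q := p + 1) (A := A + tm k L none) (h' := fun j => (h' j).at) (r := r) (f := f)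
    (N := N)
    { hd := dd_nonneg hd
      hκ := hκ
      hM := by positivity
      low := fun s hs G => ?_
      up := fun s hs G => ?_
      add := fun s hs G H => ?_
      der := fun n j => der_lq n _ _ (hh j)
      cont := fun n j => cont_lq hdc n _
      eqn := eqn
      hA := main_w (dd_nonneg hd)
        (fun A hA => Gen.ad (fun B hB => (h0 B hB).2) (fun B hB => (h1 B hB).2) hA)
        (fun A hA => Gen.tame hdc hd (fun B hB => (h0 B hB).1) (fun B hB => (h1 B hB).1) a a' hA)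
        (hA.gen.add (.t1 k L hL1)) fun ε hε => ?_
      hN := hN
      hr := hr
      hf := hf
      init := fun n => (init n).imp fun C hC j => hC j a ⟨le_rfl, le_rfl⟩
      base := base }
  · rw [dd, ← tint_const_mul]
    exact tint_mono (continuous_const.mul (hdG G)) (cont_ek hdc s G) fun x =>
      mul_le_mul_of_nonneg_right (hκ' s hs x) (hd _)
  · refine le_trans ?_ (mul_le_mul_of_nonneg_left ((tint_nA_le p G).trans (lq_le_sq bX.nonneg p G))
      (by positivity))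
    rw [← tint_const_mul]
    refine tint_mono (cont_ek hdc s G) (continuous_const.mul ((XS.sm G).nA p).cont) fun x => ?_
    rw [mul_assoc]
    exact mul_le_mul ((le_abs_self _).trans (hM' s hs x)) (hup _) (hd _) hM.le
  · have c1 : ∀ G : XS, Continuous fun x => 2 * (k.c s x * d (G.1 x)) := fun G =>
      continuous_const.mul (cont_ek hdc s G)
    rw [ek, ek, ek, ← tint_const_mul, ← tint_const_mul, ← tint_add (c1 G) (c1 H)]
    refine tint_mono (cont_ek hdc s _) ((c1 G).add (c1 H)) fun x => ?_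
    have := mul_le_mul_of_nonneg_left (hadd (G.1 x) (H.1 x)) (hk s x).le
    change k.c s x * d (G.1 x + H.1 x) ≤ _
    linarith
  · obtain ⟨C, hC, h2⟩ := hA.low a a' ε hε
    refine ⟨C + M, by positivity, fun s hs H => ?_⟩
    have c2 : Continuous fun x => M * ip (H.1 x) (H.1 x) := continuous_const.mul (XS.cont_ip _ _)
    have h5 : ek k d s H - M * bX.B H H ≤ bX.B (tm k L none s H) H := by
      rw [ek, bX_B, bX_B, ← tint_const_mul, ← tint_sub (cont_ek hdc s H) c2]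
      refine tint_mono ((cont_ek hdc s H).sub c2) (XS.cont_ip _ _) fun x => ?_
      rw [tm_apply, map_smul, LinearMap.smul_apply, smul_eq_mul]
      have e1 := mul_le_mul_of_nonneg_left (hL (H.1 x)) (hk s x).le
      have e3 := mul_le_mul_of_nonneg_right ((le_abs_self _).trans (hM' s hs x))
        (ip_self_nonneg (H.1 x))
      change _ ≤ k.c s x * ip (L (H.1 x)) (H.1 x)
      linarith
    simp only [Pi.add_apply, LinearMap.add_apply, map_add]
    linarith [(abs_le.1 (h2 s hs H)).1]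

/-- The hydrodynamic part. -/
theorem bound_hydro {F : ℝ → Fld} (hF : FldC F) {W W' : ℕ → Vf} (hW : ∀ j, SmD (W j).f (W' j).f)
    (hP : ∀ j s x, PP ((W j).f s x) = (W j).f s x) {f : ℕ → ℝ → XS}
    (eqn : ∀ j, ∀ s ∈ Icc a a', ∀ x,
      (W' (j + 1)).f s x + PP ((F s).tr ((W (j + 1)).f s) x) = (f j s).1 x)
    (hf : Bd a a' f) (init : Bd a a fun j => (W j).at) : Bd a a' fun j => (W j).at := by
  have hd : ∀ f : SV, 0 ≤ ip f f := ip_self_nonneg
  have hdc : Continuous fun f : SV => ip f f :=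
    continuous_ip.comp (continuous_id.prodMk continuous_id)
  have hA : Adm FR (fun B => B = 0) (fun f => ip f f) (trOp hF tmH) := by
    refine adm_trOp hd hF fun c α z _ => ?_
    rcases z with i | j
    · refine .tm_inl hdc c (fr_comp_PP _) i ((fr_comp_PP _).v0 hd).vd fun f h => ?_
      simp only [ContinuousLinearMap.comp_apply, ip_PP, ip_mulW]
    · exact .tm_none hdc c (fr_comp_PP _) ((fr_comp_PP _).v0 hd).vd
  refine bound_gen (P0 := FR) (P1 := fun B => B = 0) (p := 0) (Cd := 1) (n0 := 0)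
    (k := ⟨fun _ _ => 1, SmC.const _, fun _ => Per.const _⟩) (r := 0) (N := 0) (L := 0) hdc hd
    (fun f g => by simpa only [nA_zero] using nA_add_le 0 f g) zero_le_one
    (fun f => by rw [one_mul, nA_zero]) (fun _ hB => ⟨hB.v0 hd, hB.adV⟩) ?_ rfl (fun h => by simp)
    hA (fun _ _ => one_pos) hW (fun j s hs => Subtype.ext (funext fun x => ?_))
    (fun n _ => ⟨0, le_rfl, fun j s hs y => ?_⟩) (bd_iff.2 fun n => ⟨0, fun j s hs => ?_⟩) hf init
    (Or.inl rfl)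
  · rintro B rfl
    refine ⟨fun ε hε => ⟨0, le_rfl, fun f h => ?_⟩, fun j => ?_⟩
    · simpa using mul_nonneg hε.le (hd h)
    · ext1 f; simp [adV_apply]
  · have h4 := trOp_apply hF PP (T := tmH) (s := s) (x := x) (G := (W (j + 1)).at s)
      (H := opV PP ((W (j + 1)).at s)) fun c α z => by
        rcases z with i | i
        · rw [tmH, tm_apply]
          exact congrArg (fun f => c.c s x • PP (mulW α f))
            (congrFun (congrArg Subtype.val (opD_opV i PP _)) x).symm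
        · rfl
    rw [show (opV PP ((W (j + 1)).at s)).1 = (W (j + 1)).f s from funext fun y => hP _ s y] at h4
    simp only [Pi.add_apply, LinearMap.add_apply, Submodule.coe_add, h4, tm_apply, zero_apply,
      smul_zero, add_zero, Pi.zero_apply, zero_add]
    exact eqn j s hs x
  · have he : ∀ G : XS, 0 ≤ ek ⟨fun _ _ => 1, SmC.const _, fun _ => Per.const _⟩
        (fun f => ip f f) s G := fun G => tint_nonneg fun x => mul_nonneg zero_le_one (hd _)
    simp only [Pi.zero_apply, map_zero, LinearMap.zero_apply, abs_zero, zero_mul, add_zero]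
    exact mul_nonneg (by norm_num) (add_nonneg (lq_nonneg he _ _) (lq_nonneg he _ _))
  · simp [PD.nr]

/-- The collision operator times a coefficient. -/
def bl (Q : CollOp) (c : Cf) (s : ℝ) : XS →ₗ[ℝ] XS →ₗ[ℝ] XS :=
  LinearMap.mk₂ ℝ (fun G H => ⟨fun x => c.c s x • Q.G (G.1 x) (H.1 x),
      (c.sm.slice s).smul (Sm.bilin Q.G Q.cont (XS.sm G) (XS.sm H)),
      (c.per s).map₂ ((XS.per G).map₂ (XS.per H) fun f g => Q.G f g) (· • ·)⟩)
    (fun _ _ _ => Subtype.ext (funext fun x => by simp))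
    (fun a _ _ => Subtype.ext (funext fun x => by simp [smul_comm a]))
    (fun _ _ _ => Subtype.ext (funext fun x => by simp))
    (fun a _ _ => Subtype.ext (funext fun x => by simp [smul_comm a]))

lemma bl_apply (Q : CollOp) (c : Cf) (s : ℝ) (G H : XS) (x : E3) :
    (bl Q c s G H).1 x = c.c s x • Q.G (G.1 x) (H.1 x) := rfl

lemma ad2_bl (Q : CollOp) (c : Cf) (z : Fin 3 ⊕ Fin 3) : ∃ c', ad2 (ZX z) (bl Q c) = bl Q c' := by
  rcases z with i | j
  · refine ⟨c.d i, funext fun s => LinearMap.ext₂ fun G H => Subtype.ext (funext fun x => ?_)⟩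
    have h1 := congrFun (dX_smul (c.sm.slice s).dif
      (Sm.bilin Q.G Q.cont (XS.sm G) (XS.sm H)).dif i) x
    have h2 := congrFun (dX_bilin Q.G Q.cont (XS.sm G).dif (XS.sm H).dif i) x
    change dX i (fun x => c.c s x • Q.G (G.1 x) (H.1 x)) x - c.c s x • Q.G (dX i G.1 x) (H.1 x) -
      c.c s x • Q.G (G.1 x) (dX i H.1 x) = dX i (c.c s) x • Q.G (G.1 x) (H.1 x)
    rw [h1, h2, smul_add]
    abel
  · refine ⟨⟨fun _ _ => 0, SmC.const _, fun _ => Per.const _⟩,
      funext fun s => LinearMap.ext₂ fun G H => Subtype.ext (funext fun x => ?_)⟩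
    change ap j (c.c s x • Q.G (G.1 x) (H.1 x)) - c.c s x • Q.G (ap j (G.1 x)) (H.1 x) -
      c.c s x • Q.G (G.1 x) (ap j (H.1 x)) = (0 : ℝ) • Q.G (G.1 x) (H.1 x)
    rw [map_smul, Q.leib, smul_add, zero_smul]
    abel

lemma bX_bl (Q : CollOp) (c : Cf) (s : ℝ) (G H K : XS) : bX.B (bl Q c s G H) K =
    tint fun x => c.c s x * ip (Q.G (G.1 x) (H.1 x)) (K.1 x) :=
  tint_congr fun x => by rw [bl_apply, map_smul, LinearMap.smul_apply, smul_eq_mul]

lemma tri_dq (Q : CollOp) : ∃ C : ℝ, 0 < C ∧ ∀ g h f,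
    |ip (Q.G g h) f| ≤ C * √(nA Q.p h) * √(Q.dq g) * √(Q.dq f) := by
  obtain ⟨C, hC, h⟩ := Q.tri
  refine ⟨C, hC, fun g h' f => (h g h' f).trans (mul_le_mul_of_nonneg_left
    (Real.sqrt_le_sqrt (le_add_of_nonneg_right (ip_self_nonneg f))) (by positivity))⟩

lemma tri2_bl (Q : CollOp) (c : Cf) (a a' : ℝ) :
    Tri2 ZX bX (dd Q.dq) (Icc a a') (Q.p + 3 + 1) (bl Q c) := by
  obtain ⟨C, hC, h⟩ := tri_dq Q
  obtain ⟨M, hM, hM'⟩ := c.bound a a'
  have key : ∀ s ∈ Icc a a', ∀ G H K : XS, |bX.B (bl Q c s G H) K| ≤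
      M * C * √KS * (√(dd Q.dq G) * √(sq ZX nX (Q.p + 3 + 1) H)) * √(dd Q.dq K) := by
    intro s hs G H K
    set T := M * C * √KS * √(sq ZX nX (Q.p + 3 + 1) H) with hT
    have hT0 : 0 ≤ T := by positivity
    have h1 := abs_tint_le_sqrt (φ := fun x => c.c s x * ip (Q.G (G.1 x) (H.1 x)) (K.1 x))
      (a := fun x => T ^ 2 * Q.dq (G.1 x)) (b := fun x => Q.dq (K.1 x))
      (continuous_const.mul ((Alg.continuous_dq Q).comp (XS.sm G).cont))
      ((Alg.continuous_dq Q).comp (XS.sm K).cont)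
      (fun x => mul_nonneg (sq_nonneg _) (Alg.dq_nonneg Q _)) (fun x => Alg.dq_nonneg Q _)
      fun x => by
        rw [abs_mul, Real.sqrt_mul (sq_nonneg _), Real.sqrt_sq hT0]
        refine (mul_le_mul (hM' s hs x) (h _ _ _) (abs_nonneg _) hM.le).trans ?_
        have h2 := Real.sqrt_le_sqrt (nA_le_sq Q.p H x)
        rw [Real.sqrt_mul KS_nonneg] at h2
        calc _ = M * C * √(nA Q.p (H.1 x)) * (√(Q.dq (G.1 x)) * √(Q.dq (K.1 x))) := by ring
          _ ≤ M * C * (√KS * √(sq ZX nX (Q.p + 3 + 1) H)) *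
            (√(Q.dq (G.1 x)) * √(Q.dq (K.1 x))) := by gcongr
          _ = _ := by rw [hT]; ring
    rw [tint_const_mul, Real.sqrt_mul (sq_nonneg _), Real.sqrt_sq hT0] at h1
    rw [bX_bl]
    refine h1.trans_eq ?_
    rw [hT, dd, dd]
    ring
  refine ⟨M * C * √KS, by positivity, fun s hs G H K => ⟨?_, key s hs G H K⟩⟩
  rw [show bl Q c s G H = bl Q c s H G from Subtype.ext (funext fun x => by
    rw [bl_apply, bl_apply, Q.symm]), mul_comm (√_)]
  exact key s hs H G K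

lemma top_bl (Q : CollOp) {C : ℝ} (hC : 0 < C)
    (hT : ∀ g h f, |ip (Q.G g h) f| ≤ C * √(nA Q.p h) * √(Q.dq g) * √(Q.dq f)) {k k2 : Cf} {s : ℝ}
    (hk : ∀ x, 0 < k.c s x) (h2 : ∀ x, k2.c s x = k.c s x / 2) {G : XS}
    (hG : ∀ x, nA Q.p (G.1 x) ≤ 1 / (64 * C ^ 2)) (H K : XS) :
    |bX.B (bl Q k2 s H G) K| ≤ 1 / 32 * (ek k Q.dq s H + ek k Q.dq s K) := by
  have c1 : ∀ H : XS, Continuous fun x => k.c s x * Q.dq (H.1 x) := cont_ek (Alg.continuous_dq Q) s
  rw [bX_bl, ek, ek, ← tint_add (c1 H) (c1 K), ← tint_const_mul]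
  refine abs_tint_le_of_abs_le (continuous_const.mul ((c1 H).add (c1 K))) fun x => ?_
  have h3 : C * √(nA Q.p (G.1 x)) ≤ 1 / 8 := by
    rw [← le_div_iff₀' hC]
    refine Real.sqrt_le_iff.2 ⟨by positivity, (hG x).trans_eq ?_⟩
    field_simp
    norm_num
  have h4 := hT (H.1 x) (G.1 x) (K.1 x)
  have h5 := Real.sq_sqrt (Alg.dq_nonneg Q (H.1 x))
  have h6 := Real.sq_sqrt (Alg.dq_nonneg Q (K.1 x))
  have h7 := mul_le_mul_of_nonneg_right h3
    (mul_nonneg (Real.sqrt_nonneg (Q.dq (H.1 x))) (Real.sqrt_nonneg (Q.dq (K.1 x))))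
  have h8 : |ip (Q.G (H.1 x) (G.1 x)) (K.1 x)| ≤ 1 / 16 * (Q.dq (H.1 x) + Q.dq (K.1 x)) := by
    nlinarith [sq_nonneg (√(Q.dq (H.1 x)) - √(Q.dq (K.1 x)))]
  rw [abs_mul, h2, abs_of_pos (half_pos (hk x))]
  linarith [mul_le_mul_of_nonneg_left h8 (hk x).le]

lemma allBd_of {s0 : ℝ} {φ : ℕ → Vf} (h : ∀ s1, ∃ J, Bd s0 s1 fun j => (φ (J + j)).at) :
    AllBd s0 fun j => (φ j).f := fun s1 n u => by
  obtain ⟨J, h⟩ := h s1
  obtain ⟨C, hC⟩ := h.nA_le n u
  refine ⟨C, (eventually_ge_atTop J).mono fun j hj => ?_⟩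
  obtain ⟨i, rfl⟩ := Nat.exists_eq_add_of_le hj
  exact hC i

theorem boundStmt : BoundStmt := by
  intro Q
  obtain ⟨C, hC, hT⟩ := tri_dq Q
  obtain ⟨p, Cd, hCd, hup⟩ := Alg.dq_le_nA Q
  refine ⟨p + 1 + (2 * (Q.p + 3 + 1) + 1), 1 / (256 * C ^ 2), by positivity,
    fun F k s0 ε N h h' g e hF hk hkp hk0 hN hε I Lg => ?_⟩
  obtain ⟨m, m', φ, Ψ, Ψ', W, W', c, d, α, K, hφ, hφp, hΨ, hW⟩ := Lg.str
  choose w1 w2 w3 w4 w5 w6 w7 using hW
  let kc : Cf := ⟨k, hk, hkp⟩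
  let k2 : Cf := ⟨fun s x => k s x / 2, (hk.const_smul 2⁻¹).congr fun s x => by
    rw [smul_eq_mul, inv_mul_eq_div], fun s => (hkp s).map (· / 2)⟩
  let H : ℕ → Vf := fun j => ⟨h j, (I.smd j).sm, I.per j⟩
  let H' : ℕ → Vf := fun j => ⟨h' j, (I.smd j).sm', I.per' j⟩
  let G : ℕ → Vf := fun j => ⟨g j, I.smg j, I.perg j⟩
  let E : ℕ → Vf := fun j => ⟨e j, I.sme j, I.pere j⟩
  let U : ℕ → Vf := fun j => ⟨W j, (w1 j).sm, w2 j⟩
  let U' : ℕ → Vf := fun j => ⟨W' j, (w1 j).sm', w3 j⟩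
  let Φ : Fin m → Vf := fun i => ⟨φ i, hφ i, hφp i⟩
  let P : Fin m' → Vf := fun i => ⟨fun _ => Ψ i, (hΨ i).1.smC, fun _ => (hΨ i).2.1⟩
  let P' : Fin m' → Vf := fun i => ⟨fun _ => Ψ' i, (hΨ i).2.2.1.smC, fun _ => (hΨ i).2.2.2⟩
  let S : Vf := ⟨fun s => (F s).src, Alg.smC_src hF, fun s => Alg.per_src (hF.reg s)⟩
  have ev : ∀ {n : ℕ} (ψ : Fin n → Vf) (a : Fin n → ℝ) (s : ℝ) (x : E3),
      (∑ i, a i • (ψ i).at s).1 x = ∑ i, a i • (ψ i).f s x := fun ψ a s x => by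
    simp only [Submodule.coe_sum, Finset.sum_apply]
    rfl
  have bE : ∀ s1, Bd s0 s1 fun j => (E j).at := fun s1 =>
    (bd_fin Φ (c := d) fun j s hs i => ((w7 j s hs.1).1 i).2).congr fun j s hs =>
      Subtype.ext (funext fun x => by rw [ev]; exact ((w7 j s hs.1).2 x).2.2)
  have bU : ∀ s1, Bd s0 s1 fun j => (U j).at := fun s1 =>
    bound_hydro hF (W' := U') w1 w4 (fun j s hs x => by rw [ev]; exact ((w7 _ s hs.1).2 x).1)
      (bd_fin Φ (c := fun j => c (j + 1)) fun j s hs i => ((w7 _ s hs.1).1 i).1)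
      ((bd_fin P (c := fun j _ => α j) fun j _ _ => w5 j).congr fun j s hs => by
        obtain rfl : s = s0 := le_antisymm hs.2 hs.1
        exact Subtype.ext (funext fun x => by rw [ev]; exact (w6 j x).1))
  have lag : ∀ j s, s0 ≤ s → (G (j + 1)).at s = (H j).at s + ((U (j + 1)).at s - (U j).at s) :=
    fun j s hs => Subtype.ext (funext fun x => eq_add_of_sub_eq' ((w7 j s hs).2 x).2.1)
  have hΓ := collData_gam Q
  have hdq : (fun f => -ip (gam Q sqMS f) f + ip f f) = Q.dq := funext fun f => by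
    rw [neg_ip_gam]; rfl
  have bH : ∀ s1, ∃ J, Bd s0 s1 fun j => (H (J + j)).at := fun s1 => by
    obtain ⟨J, hJ⟩ := I.cauchy s1 (1 / (256 * C ^ 2)) (by positivity)
    refine ⟨J, bound_gen (P0 := MulC 3) (P1 := fun B => ∃ φ, B = -gam Q φ) (k := kc)
      (n0 := 2 * (Q.p + 3 + 1) + 1) (h' := fun j => H' (J + j))
      (A := trOp hF fun c α z => tm c (mulW α) (some z)) (L := -gam Q sqMS)
      (N := fun j s => bl Q k2 s ((G (J + j + 1)).at s) ((G (J + j + 1)).at s))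
      (Alg.continuous_dq Q) (Alg.dq_nonneg Q) (Alg.dq_add_le Q) hCd.le hup
      (fun _ hB => ⟨hB.v0 (Alg.dq_nonneg Q) (Q.wgt.imp fun _ t => t.2), hB.adV⟩) ?_ ⟨_, rfl⟩
      (fun f => by rw [← hdq]; simp)
      (adm_trOp (Alg.dq_nonneg Q) hF fun c α z hα => hdq ▸ adm_mulW hΓ c α hα (some z)) hk0
      (fun j => I.smd _) (fun j s hs => Subtype.ext (funext fun x => ?_)) (fun n hn => ?_)
      (((bU s1).comp fun j => J + j + 1).sub ((bU s1).comp fun j => J + j))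
      ((bd_vf S).add ((bE s1).comp fun j => J + j + 1))
      ((bd_fin P' (c := fun j _ => α (J + j)) fun j _ _ => w5 _).congr fun j s hs => by
        obtain rfl : s = s0 := le_antisymm hs.2 hs.1
        exact Subtype.ext (funext fun x => by rw [ev]; exact (w6 _ x).2)) (Or.inr ?_)⟩
    · rintro B ⟨ψ, rfl⟩
      exact ⟨hdq ▸ hΓ.v1 ψ, fun j => ⟨_, hΓ.adV j ψ⟩⟩
    · have h4 := trOp_apply hF (ContinuousLinearMap.id ℝ SV) (s := s) (x := x)
        (T := fun c α z => tm c (mulW α) (some z)) (G := (H (J + (j + 1))).at s)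
        (H := (H (J + (j + 1))).at s) fun c α z => by rw [tm_apply, ZoX_val]; rfl
      simp only [Pi.add_apply, LinearMap.add_apply, Submodule.coe_add, h4, tm_apply, neg_apply,
        neg_gam, bl_apply, ContinuousLinearMap.id_apply]
      rw [← add_assoc, add_left_comm (k2.c s x • _), ← add_assoc (S.at s |>.1 x)]
      exact I.eqn (J + j + 1) s hs.1 x
    · obtain ⟨C1, hC1, h1⟩ := quad_le (Z := ZX) (b := bX) (I := Icc s0 s1)
        (𝒟 := fun B => ∃ c, B = bl Q c) (dd_nonneg (Alg.dq_nonneg Q))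
        (by rintro _ ⟨c, rfl⟩ z; exact ad2_bl Q c z)
        (by rintro _ ⟨c, rfl⟩; exact tri2_bl Q c s0 s1) ⟨k2, rfl⟩
        (fun s f g => Subtype.ext (funext fun x => by rw [bl_apply, bl_apply, Q.symm])) hn
      refine ⟨C1, hC1, fun j s hs y => ?_⟩
      rw [← lag _ s hs.1]
      refine (h1 s hs _ y (ek kc Q.dq s) (1 / 32) (top_bl Q hC hT (hk0 s) (fun _ => rfl)
        fun x => ?_)).trans_eq (by norm_num)
      have a1 := (hJ (J + j + 1) (by omega) J le_rfl s hs).2.1 [] (by simp) x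
      have a2 := (I.small (J + j + 1) s hs.1 x).trans hε
      have a3 := nA_add_le N (g (J + j + 1) s x - h (J + j + 1) s x) (h (J + j + 1) s x)
      rw [sub_add_cancel] at a3
      refine (nA_mono (by omega : Q.p ≤ N) _).trans (a3.trans ?_)
      rw [show 1 / (64 * C ^ 2) = 2 * (1 / (256 * C ^ 2)) + 2 * (1 / (256 * C ^ 2)) by ring]
      exact add_le_add (mul_le_mul_of_nonneg_left a1 zero_le_two)
        (mul_le_mul_of_nonneg_left a2 zero_le_two)
    · obtain ⟨C1, h1⟩ := Lg.bdd s1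
      refine ⟨∑ i ∈ range (p + 1 + (2 * (Q.p + 3 + 1) + 1)), 6 ^ i * C1, fun j s hs =>
        sum_le_sum fun i hi => lq_le_of_nA i _ _ fun u hu y => ?_⟩
      have := mem_range.1 hi
      exact (nA_mono (by omega) _).trans (h1 _ s hs u (by omega) y)
  refine ⟨allBd_of (φ := H) bH, allBd_of (φ := G) fun s1 => ?_,
    allBd_of (φ := E) fun s1 => ⟨0, (bE s1).comp _⟩⟩
  obtain ⟨J, hJ⟩ := bH s1
  exact ⟨J + 1, (hJ.add (((bU s1).comp fun j => J + j + 1).sub
    ((bU s1).comp fun j => J + j))).congr fun j s hs => by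
      rw [add_right_comm]; exact lag _ s hs.1⟩

end Pool.Agent.MP_187b32_an.M7
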