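import Pool.Agent.MP_187b32_an.M7.Abs

/-! Bounds of all orders, uniform along an iteration, on a compact time interval. -/

set_option autoImplicit false

open Set Filter Topology Finset

noncomputable section

namespace Pool.Agent.MP_187b32_an.M7

open Solver

theorem seq_gronwall {E E' D ψ : ℕ → ℝ → ℝ} {a a' C K : ℝ}
    (hE : ∀ j s, HasDerivAt (E j) (E' j s) s) (hD : ∀ j, Continuous (D j))
    (hψ : ∀ j, Continuous (ψ j)) (hE0 : ∀ j s, 0 ≤ E j s) (hD0 : ∀ j, ∀ s ∈ Icc a a', 0 ≤ D j s)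
    (hψ0 : ∀ j, ∀ s ∈ Icc a a', 0 ≤ ψ j s) (hC : 0 ≤ C)
    (h : ∀ j, ∀ s ∈ Icc a a', E' (j + 1) s + D (j + 1) s ≤ D j s / 4 + C * E (j + 1) s + ψ j s)
    (hK : ∀ j, ∀ s ∈ Icc a a', ∫ t in a..s, ψ j t ≤ K) (h0 : ∀ j, E j a ≤ K) :
    ∃ K', ∀ j, ∀ s ∈ Icc a a', E j s ≤ K' ∧ ∫ t in a..s, D j t ≤ K' := by
  set w : ℝ → ℝ := fun t => Real.exp (-C * (t - a)) with hw
  have hwc : Continuous w := by fun_prop
  have hw0 : ∀ t, 0 < w t := fun t => Real.exp_pos _
  have hwd : ∀ t, HasDerivAt w (w t * -C) t := fun t => by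
    exact ((((hasDerivAt_id t).sub_const a).const_mul (-C)).exp).congr_deriv (by simp [hw])
  have hw1 : ∀ t ∈ Icc a a', w t ≤ 1 := fun t ht =>
    Real.exp_le_one_iff.2 (by nlinarith [ht.1])
  have hw2 : ∀ t ∈ Icc a a', w a' ≤ w t := fun t ht =>
    Real.exp_le_exp.2 (by nlinarith [ht.2])
  have hEc : ∀ j, Continuous (E j) := fun j =>
    continuous_iff_continuousAt.2 fun s => (hE j s).continuousAt
  have hI : ∀ {φ : ℝ → ℝ}, Continuous φ → ∀ s, HasDerivAt (fun s => ∫ t in a..s, φ t) (φ s) s :=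
    fun hφ s => (hφ.integral_hasStrictDerivAt a s).hasDerivAt
  have hpos : ∀ j, ∀ s ∈ Icc a a', 0 ≤ ∫ t in a..s, w t * D j t := fun j s hs =>
    intervalIntegral.integral_nonneg hs.1 fun t ht =>
      mul_nonneg (hw0 t).le (hD0 j t ⟨ht.1, ht.2.trans hs.2⟩)
  have step : ∀ j, ∀ s ∈ Icc a a', w s * E (j + 1) s + ∫ t in a..s, w t * D (j + 1) t ≤
      2 * K + (w s * E j s + ∫ t in a..s, w t * D j t) / 4 := by
    intro j s hs
    have hd : ∀ s, HasDerivAt (fun s => w s * E (j + 1) s + (∫ t in a..s, w t * D (j + 1) t) -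
        (∫ t in a..s, w t * D j t) / 4 - ∫ t in a..s, ψ j t)
        (w s * -C * E (j + 1) s + w s * E' (j + 1) s + w s * D (j + 1) s - w s * D j s / 4 -
          ψ j s) s := fun s =>
      ((((hwd s).fun_mul (hE (j + 1) s)).fun_add (hI (hwc.mul (hD _)) s)).fun_sub
        ((hI (hwc.mul (hD _)) s).div_const 4)).fun_sub (hI (hψ j) s)
    have hm := antitoneOn_of_deriv_nonpos (convex_Icc a a')
      (fun s _ => (hd s).continuousAt.continuousWithinAt)
      (fun s _ => (hd s).differentiableAt.differentiableWithinAt) fun s hs => by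
        have hs' := interior_subset hs
        rw [(hd s).deriv]
        nlinarith [mul_le_mul_of_nonneg_left (h j s hs') (hw0 s).le,
          mul_le_mul_of_nonneg_right (hw1 s hs') (hψ0 j s hs')]
    have h1 := hm ⟨le_rfl, hs.1.trans hs.2⟩ hs hs.1
    simp only [intervalIntegral.integral_same, hw, sub_self, mul_zero, Real.exp_zero] at h1
    have h2 := mul_nonneg (hw0 s).le (hE0 j s)
    linarith [hK j s hs, h0 (j + 1)]
  have hc0 : Continuous fun s => w s * E 0 s + ∫ t in a..s, w t * D 0 t :=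
    (hwc.mul (hEc 0)).add (continuous_iff_continuousAt.2 fun s =>
      (hI (hwc.mul (hD 0)) s).continuousAt)
  obtain ⟨M, hM⟩ := (isCompact_Icc (a := a) (b := a')).bddAbove_image hc0.continuousOn
  have hK0 : 0 ≤ K := (hE0 0 a).trans (h0 0)
  have hY : ∀ j, ∀ s ∈ Icc a a', w s * E j s + ∫ t in a..s, w t * D j t ≤ max M (4 * K) := by
    intro j
    induction j with
    | zero => exact fun s hs => (hM ⟨s, hs, rfl⟩).trans (le_max_left _ _)
    | succ j ih =>
      intro s hs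
      linarith [step j s hs, ih s hs, le_max_right M (4 * K)]
  refine ⟨max M (4 * K) / w a', fun j s hs => ⟨?_, ?_⟩⟩
  · rw [le_div_iff₀ (hw0 _)]
    nlinarith [hY j s hs, hpos j s hs, mul_le_mul_of_nonneg_right (hw2 s hs) (hE0 j s)]
  · rw [le_div_iff₀ (hw0 _), mul_comm, ← intervalIntegral.integral_const_mul]
    refine le_trans (intervalIntegral.integral_mono_on hs.1
      ((continuous_const.mul (hD j)).intervalIntegrable _ _)
      ((hwc.mul (hD j)).intervalIntegrable _ _) fun t ht => ?_) ?_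
    · have ht' : t ∈ Icc a a' := ⟨ht.1, ht.2.trans hs.2⟩
      exact mul_le_mul_of_nonneg_right (hw2 t ht') (hD0 j t ht')
    · exact (le_add_of_nonneg_left (mul_nonneg (hw0 s).le (hE0 j s))).trans (hY j s hs)

variable {X : Type*} [AddCommGroup X] [Module ℝ X] {ι : Type*} [Fintype ι]
  {Z : ι → X →ₗ[ℝ] X} {b : PD X} {d : X → ℝ}

/-- The hypotheses of the regularity theorem. -/
structure Reg (Z : ι → X →ₗ[ℝ] X) (b : PD X) (d : X → ℝ) (e : ℝ → X → ℝ) (a a' κ M : ℝ)
    (n0 q : ℕ) (A : ℝ → X →ₗ[ℝ] X) (h h' r f N : ℕ → ℝ → X) : Prop where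
  hd : ∀ x, 0 ≤ d x
  hκ : 0 < κ
  hM : 0 ≤ M
  low : ∀ s ∈ Icc a a', ∀ x, κ * d x ≤ e s x
  up : ∀ s ∈ Icc a a', ∀ x, e s x ≤ M * sq Z (fun x => b.B x x) q x
  add : ∀ s ∈ Icc a a', ∀ x y, e s (x + y) ≤ 2 * e s x + 2 * e s y
  der : ∀ n j s, HasDerivAt (fun t => lq Z (fun x => b.B x x) n (h j t))
    (2 * NB Z b.B n (h' j s) (h j s)) s
  cont : ∀ n j, Continuous fun s => lq Z (e s) n (h j s)
  eqn : ∀ j, ∀ s ∈ Icc a a', h' (j + 1) s + A s (h (j + 1) s) = N j s + f j s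
  hA : ∀ n, ∀ ε : ℝ, 0 < ε → ∃ C : ℝ, 0 ≤ C ∧ ∀ s ∈ Icc a a', ∀ g,
    lq Z (e s) n g - ε * sq Z d (n + 1) g -
      C * (sq Z (fun x => b.B x x) (n + 1) g + sq Z d n g) ≤ NB Z b.B n (A s g) g
  hN : ∀ n, n0 ≤ n → ∃ C : ℝ, 0 ≤ C ∧ ∀ j, ∀ s ∈ Icc a a', ∀ y,
    |NB Z b.B n (N j s) y| ≤ 1 / 16 * (lq Z (e s) n (h j s + r j s) + lq Z (e s) n y) +
      C * (√(sq Z (fun x => b.B x x) n (h j s + r j s)) * √(sq Z d n (h j s + r j s))) *
        √(lq Z d n y)
  hr : ∀ n, ∃ C, ∀ j, ∀ s ∈ Icc a a', sq Z (fun x => b.B x x) n (r j s) ≤ C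
  hf : ∀ n, ∃ C, ∀ j, ∀ s ∈ Icc a a', sq Z (fun x => b.B x x) n (f j s) ≤ C
  init : ∀ n, ∃ C, ∀ j, sq Z (fun x => b.B x x) n (h j a) ≤ C
  base : n0 = 0 ∨ ∃ C, ∀ j, ∀ s ∈ Icc a a', sq Z (fun x => b.B x x) (q + n0) (h j s) ≤ C

variable {e : ℝ → X → ℝ} {a a' κ M : ℝ} {n0 q : ℕ} {A : ℝ → X →ₗ[ℝ] X} {h h' r f N : ℕ → ℝ → X}

lemma Reg.e_nonneg (H : Reg Z b d e a a' κ M n0 q A h h' r f N) {s : ℝ} (hs : s ∈ Icc a a')
    (x : X) : 0 ≤ e s x := (mul_nonneg H.hκ.le (H.hd x)).trans (H.low s hs x)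

lemma Reg.lq_le (H : Reg Z b d e a a' κ M n0 q A h h' r f N) {s : ℝ} (hs : s ∈ Icc a a')
    (n : ℕ) (x : X) : lq Z (e s) n x ≤ M * sq Z (fun x => b.B x x) (q + n) x := by
  have h1 := lq_lin (Z := Z) M 0 (sq Z (fun x => b.B x x) q) d n x
  simp only [zero_mul, add_zero] at h1
  exact (lq_mono (H.up s hs) n x).trans (h1.le.trans
    (mul_le_mul_of_nonneg_left (lq_sq_le b.nonneg q n x) H.hM))

lemma Reg.sq_le (H : Reg Z b d e a a' κ M n0 q A h h' r f N) {s : ℝ} (hs : s ∈ Icc a a')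
    (n : ℕ) (x : X) : sq Z (e s) n x ≤ n * (M * sq Z (fun x => b.B x x) (q + n) x) := by
  rw [← nsmul_eq_mul]
  conv_rhs => rw [← card_range n]
  refine sum_le_card_nsmul _ _ _ fun j hj => (H.lq_le hs j x).trans ?_
  rw [card_range]
  exact mul_le_mul_of_nonneg_left (sq_mono b.nonneg (by have := mem_range.1 hj; omega) x) H.hM

lemma Reg.cont_sq (H : Reg Z b d e a a' κ M n0 q A h h' r f N) (n j : ℕ) :
    Continuous fun s => sq Z (e s) n (h j s) := continuous_finsetSum _ fun m _ => H.cont m j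

lemma Reg.step (H : Reg Z b d e a a' κ M n0 q A h h' r f N) {n : ℕ} (hn : n0 ≤ n)
    (P : ∃ C, ∀ j, ∀ s ∈ Icc a a', sq Z (fun x => b.B x x) n (h j s) ≤ C ∧
      ∫ t in a..s, sq Z (e t) n (h j t) ≤ C) :
    ∃ C, ∀ j, ∀ s ∈ Icc a a', sq Z (fun x => b.B x x) (n + 1) (h j s) ≤ C ∧
      ∫ t in a..s, sq Z (e t) (n + 1) (h j t) ≤ C := by
  obtain ⟨C, hC⟩ := P
  have hκ := H.hκ
  have hM := H.hM
  obtain ⟨C1, hC1, h1⟩ := H.hA n (κ / 8) (by positivity)
  obtain ⟨C2, hC2, h2⟩ := H.hN n hn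
  obtain ⟨C3, h3⟩ := H.hr (q + n)
  obtain ⟨C4, h4⟩ := H.hf (n + 1)
  obtain ⟨C5, h5⟩ := H.init (n + 1)
  set nn : X → ℝ := fun x => b.B x x with hnn
  have hn0 : ∀ x, 0 ≤ nn x := b.nonneg
  set c2 : ℝ := 4 * C2 ^ 2 / κ ^ 2 * (2 * |C| + 2 * |C3|) with hc2
  have hc20 : 0 ≤ c2 := by positivity
  set c0 : ℝ := M * |C3| / 4 + 2 * C1 * |C| + |C4| + 2 * c2 * (n * (M * |C3|)) with hc0
  have hc00 : 0 ≤ c0 := by positivity
  set c1 : ℝ := 1 / 4 + 2 * C1 / κ with hc1
  have hc10 : 0 ≤ c1 := by positivity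
  obtain ⟨K', hK'⟩ := seq_gronwall (E := fun j s => lq Z nn n (h j s))
    (D := fun j s => lq Z (e s) n (h j s))
    (ψ := fun j s => c0 + c1 * sq Z (e s) n (h (j + 1) s) + 2 * c2 * sq Z (e s) n (h j s))
    (a := a) (a' := a') (C := 2 * C1 + 1) (K := max C5 (c0 * (a' - a) + c1 * C + 2 * c2 * C))
    (H.der n) (H.cont n)
    (fun j => (continuous_const.add (continuous_const.mul (H.cont_sq n _))).add
      (continuous_const.mul (H.cont_sq n _)))
    (fun j s => lq_nonneg hn0 _ _) (fun j s hs => lq_nonneg (H.e_nonneg hs) _ _)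
    (fun j s hs => by
      have := sq_nonneg' (Z := Z) (H.e_nonneg hs) n (h (j + 1) s)
      have := sq_nonneg' (Z := Z) (H.e_nonneg hs) n (h j s)
      positivity) (by positivity)
    (fun j s hs => by
      have e1 : h' (j + 1) s = N j s + f j s - A s (h (j + 1) s) := eq_sub_of_add_eq (H.eqn j s hs)
      simp only [e1, map_add, map_sub, LinearMap.add_apply, LinearMap.sub_apply]
      set y := h (j + 1) s
      set g := h j s + r j s with hg
      have a1 := h1 s hs y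
      have a2 := (abs_le.1 (h2 j s hs y)).2
      have a3 := (abs_le.1 (abs_NB_le (Z := Z) (φ := b.B) (e := nn) abs_B_le_half n (f j s) y)).2
      rw [sq_succ, sq_succ] at a1
      have b1 := lq_le_mul (Z := Z) (H.low s hs) n y
      have b2 := sq_le_mul (Z := Z) (H.low s hs) n y
      have b3 := (hC (j + 1) s hs).1.trans (le_abs_self C)
      have b4 := (lq_le_sq hn0 n (f j s)).trans ((h4 j s hs).trans (le_abs_self C4))
      have r1 := (h3 j s hs).trans (le_abs_self C3)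
      have b5 : lq Z (e s) n g ≤ 2 * lq Z (e s) n (h j s) + 2 * (M * |C3|) := by
        linarith [lq_add_le' (Z := Z) (H.add s hs) n (h j s) (r j s), H.lq_le hs n (r j s),
          mul_le_mul_of_nonneg_left r1 hM]
      have b6 : sq Z nn n g ≤ 2 * |C| + 2 * |C3| := by
        linarith [sq_add_le' (Z := Z) (d := nn) (lq_add_le (Z := Z) b 0) n (h j s) (r j s),
          (hC j s hs).1.trans (le_abs_self C),
          sq_mono (Z := Z) hn0 (Nat.le_add_left n q) (r j s)]
      have b7 : κ * sq Z d n g ≤ 2 * sq Z (e s) n (h j s) + 2 * (n * (M * |C3|)) := by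
        have t1 : sq Z (e s) n (r j s) ≤ n * (M * |C3|) := (H.sq_le hs n _).trans (by gcongr)
        linarith [sq_le_mul (Z := Z) (H.low s hs) n g,
          sq_add_le' (Z := Z) (H.add s hs) n (h j s) (r j s)]
      have p1 := sq_nonneg' (Z := Z) hn0 n g
      have p2 := sq_nonneg' (Z := Z) H.hd n g
      have p3 := lq_nonneg (Z := Z) H.hd n y
      have p4 := sq_nonneg' (Z := Z) H.hd n y
      have b8 : C2 * (√(sq Z nn n g) * √(sq Z d n g)) * √(lq Z d n y) ≤
          κ / 8 * lq Z d n y + c2 / 2 * (κ * sq Z d n g) := by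
        have t1 : 0 ≤ κ / 8 * (√(lq Z d n y) - 4 * C2 / κ * (√(sq Z nn n g) * √(sq Z d n g))) ^ 2 := by
          positivity
        have t2 : κ / 8 * (√(lq Z d n y) - 4 * C2 / κ * (√(sq Z nn n g) * √(sq Z d n g))) ^ 2 =
            κ / 8 * √(lq Z d n y) ^ 2 - C2 * (√(sq Z nn n g) * √(sq Z d n g)) * √(lq Z d n y) +
              2 * C2 ^ 2 / κ ^ 2 * √(sq Z nn n g) ^ 2 * (κ * √(sq Z d n g) ^ 2) := by
          field_simp
          ring
        rw [t2, Real.sq_sqrt p1, Real.sq_sqrt p2, Real.sq_sqrt p3] at t1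
        have t3 : 2 * C2 ^ 2 / κ ^ 2 * sq Z nn n g * (κ * sq Z d n g) ≤
            c2 / 2 * (κ * sq Z d n g) := by
          refine mul_le_mul_of_nonneg_right ?_ (by positivity)
          calc _ ≤ 2 * C2 ^ 2 / κ ^ 2 * (2 * |C| + 2 * |C3|) := by gcongr
            _ = _ := by rw [hc2]; ring
        linarith
      have b9 : C1 * sq Z d n y ≤ C1 / κ * sq Z (e s) n y := by
        rw [div_mul_eq_mul_div, le_div_iff₀ hκ]
        nlinarith [mul_le_mul_of_nonneg_left b2 hC1]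
      have b10 := mul_le_mul_of_nonneg_left b7 hc20
      have b11 := mul_le_mul_of_nonneg_left b3 hC1
      have p5 := lq_nonneg (Z := Z) (H.e_nonneg hs) n y
      have e2 : c1 * sq Z (e s) n y = sq Z (e s) n y / 4 + 2 * (C1 / κ * sq Z (e s) n y) := by
        rw [hc1]; ring
      rw [e2, hc0]
      linarith)
    (fun j s hs => by
      have i1 := (H.cont_sq n (j + 1)).intervalIntegrable (μ := MeasureTheory.volume) a s
      have i2 := (H.cont_sq n j).intervalIntegrable (μ := MeasureTheory.volume) a s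
      rw [intervalIntegral.integral_add (intervalIntegrable_const.add (i1.const_mul _))
        (i2.const_mul _), intervalIntegral.integral_add intervalIntegrable_const (i1.const_mul _),
        intervalIntegral.integral_const_mul, intervalIntegral.integral_const_mul,
        intervalIntegral.integral_const, smul_eq_mul]
      refine le_trans ?_ (le_max_right _ _)
      nlinarith [mul_le_mul_of_nonneg_left (hC j s hs).2 hc20,
        mul_le_mul_of_nonneg_left (hC (j + 1) s hs).2 hc10, mul_nonneg hc00 (sub_nonneg.2 hs.2)])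
    (fun j => ((lq_le_sq hn0 n _).trans (h5 j)).trans (le_max_left _ _))
  refine ⟨C + K', fun j s hs => ⟨?_, ?_⟩⟩
  · rw [sq_succ]
    exact add_le_add (hC j s hs).1 (hK' j s hs).1
  · simp only [sq_succ]
    rw [intervalIntegral.integral_add ((H.cont_sq n j).intervalIntegrable _ _)
      ((H.cont n j).intervalIntegrable _ _)]
    exact add_le_add (hC j s hs).2 (hK' j s hs).2

theorem Reg.bound (H : Reg Z b d e a a' κ M n0 q A h h' r f N) (n : ℕ) :
    ∃ C, ∀ j, ∀ s ∈ Icc a a', sq Z (fun x => b.B x x) n (h j s) ≤ C := by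
  have key : ∀ n, n0 ≤ n → ∃ C, ∀ j, ∀ s ∈ Icc a a', sq Z (fun x => b.B x x) n (h j s) ≤ C ∧
      ∫ t in a..s, sq Z (e t) n (h j t) ≤ C := by
    intro n hn
    induction n, hn using Nat.le_induction with
    | base =>
      obtain rfl | ⟨C, hC⟩ := H.base
      · exact ⟨0, fun j s hs => by simp [Solver.sq]⟩
      have hM := H.hM
      refine ⟨max C ((a' - a) * (n0 * (M * |C|))), fun j s hs => ⟨?_, ?_⟩⟩
      · exact ((sq_mono b.nonneg (Nat.le_add_left n0 q) _).trans (hC j s hs)).trans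
          (le_max_left _ _)
      · refine le_trans (intervalIntegral.integral_mono_on hs.1
          ((H.cont_sq n0 j).intervalIntegrable _ _) (g := fun _ => n0 * (M * |C|))
          intervalIntegrable_const fun t ht => ?_) ?_
        · have ht' : t ∈ Icc a a' := ⟨ht.1, ht.2.trans hs.2⟩
          have := (hC j t ht').trans (le_abs_self C)
          exact (H.sq_le ht' n0 _).trans (by gcongr)
        · rw [intervalIntegral.integral_const, smul_eq_mul]
          refine le_trans ?_ (le_max_right _ _)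
          have := hs.2
          gcongr
    | succ n hn ih => exact H.step hn ih
  obtain ⟨C, hC⟩ := key (max n0 n) (le_max_left _ _)
  exact ⟨C, fun j s hs => (sq_mono b.nonneg (le_max_right n0 n) _).trans (hC j s hs).1⟩

end Pool.Agent.MP_187b32_an.M7
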