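import Pool.Agent.MP_187b32_an.Pic.IterSpec

/-!
Module M7 (smoothness of the solution): the extra structure of the iteration that is needed, and
the strengthened statements.
-/

set_option autoImplicit false

open Pool.Agent.Boltz Finset Filter Topology
open scoped ContDiff

noncomputable section

namespace Pool.Agent.MP_187b32_an

/-- The structure of the iteration: bounds of order `N`, the lag `g (j+1) - h j` is a difference of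
solutions of the hydrodynamic system, the error and the data have finite rank. -/
structure Lag (F : ℝ → Fld) (s0 : ℝ) (N : ℕ) (h g e : ℕ → ℝ → E3 → SV) : Prop where
  bdd : ∀ s1, ∃ C, ∀ j, ∀ s ∈ Set.Icc s0 s1, ∀ u : List (Fin 3), u.length ≤ N → ∀ x,
    nA N (dXw u (h j s) x) ≤ C
  str : ∃ (m m' : ℕ) (φ : Fin m → ℝ → E3 → SV) (Ψ Ψ' : Fin m' → E3 → SV)
    (W W' : ℕ → ℝ → E3 → SV) (c d : ℕ → ℝ → Fin m → ℝ) (α : ℕ → Fin m' → ℝ) (C : ℝ),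
    (∀ i, SmC (φ i)) ∧ (∀ i s, Per (φ i s)) ∧
    (∀ i, Sm (Ψ i) ∧ Per (Ψ i) ∧ Sm (Ψ' i) ∧ Per (Ψ' i)) ∧
    ∀ j, SmD (W j) (W' j) ∧ (∀ s, Per (W j s)) ∧ (∀ s, Per (W' j s)) ∧
      (∀ s x, PP (W j s x) = W j s x) ∧ (∀ i, |α j i| ≤ C) ∧
      (∀ x, W j s0 x = ∑ i, α j i • Ψ i x ∧ h j s0 x = ∑ i, α j i • Ψ' i x) ∧
      ∀ s, s0 ≤ s → (∀ i, |c j s i| ≤ C ∧ |d j s i| ≤ C) ∧ ∀ x,
        W' j s x + PP ((F s).tr (W j s) x) = ∑ i, c j s i • φ i s x ∧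
        g (j + 1) s x - h j s x = W (j + 1) s x - W j s x ∧
        e j s x = ∑ i, d j s i • φ i s x

/-- M6c-1 with the structure of the iteration exposed. -/
def IterStmt2 : Prop :=
  ∀ (Q : CollOp) (B : BgD), B.Ok → ∀ (N : ℕ) (ε : ℝ), 0 < ε →
    ∃ (A s0 : ℝ) (h h' g e : ℕ → ℝ → E3 → SV), 0 < A ∧ 0 ≤ s0 ∧
      Iter Q B.fld (fun s x => A * B.k1 s x) s0 ε N h h' g e ∧ Lag B.fld s0 N h g e

/-- M6c-2 with the pointwise convergence exposed. -/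
def LimitStmt2 : Prop :=
  ∀ Q : CollOp, (∀ (f g : SV) (v : E3), Q.G f g v = Coll.Gs f g v) → ∀ (p : ℕ) (ε : ℝ), 0 < ε →
    ∃ (N : ℕ) (ε' : ℝ), 0 < ε' ∧ ∀ (F : ℝ → Fld) (k : ℝ → E3 → ℝ) (s0 : ℝ)
      (h h' g e : ℕ → ℝ → E3 → SV), FldC F → SmC k → (∀ s, Per (k s)) →
      Iter Q F k s0 ε' N h h' g e → ∃ f : ℝ → E3 → E3 → ℝ, Lim F k s0 ε p f ∧
        ∀ s, s0 ≤ s → ∀ x V, Tendsto (fun j => h j s x V) atTop (𝓝 (f s x V))

theorem IterStmt2.iter (h : IterStmt2) : IterStmt := fun Q B hB N ε hε => by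
  obtain ⟨A, s0, h, h', g, e, hA, hs, hI, -⟩ := h Q B hB N ε hε
  exact ⟨A, s0, h, h', g, e, hA, hs, hI⟩

theorem LimitStmt2.limit (h : LimitStmt2) : LimitStmt := fun Q hQ p ε hε => by
  obtain ⟨N, ε', hε', h⟩ := h Q hQ p ε hε
  exact ⟨N, ε', hε', fun F k s0 h1 h' g e hF hk hp hI => (h F k s0 h1 h' g e hF hk hp hI).imp
    fun f hf => hf.1⟩

end Pool.Agent.MP_187b32_an
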