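import Pool.Agent.MP_187b32_an.M7.Spec2
import Pool.Agent.MP_187b32_an.M7.Abs
import Pool.Agent.MP_187b32_an.Solver.Space
import Pool.Agent.MP_187b32_an.Alg.Need
import Pool.Agent.MP_187b32_an.Pic.LimA

/-! Module M7b: the limit of the iteration in Schwartz space. -/

set_option autoImplicit false

open Pool.Agent.Boltz Set Filter Topology Finset

noncomputable section

namespace Pool.Agent.MP_187b32_an

namespace SvLim

open Solver

lemma cont_onePoint {Y Z : Type*} [TopologicalSpace Y] [LocallyCompactSpace Y] [UniformSpace Z]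
    {Φ : OnePoint ℕ → Y → Z} (hc : ∀ j, Continuous (Φ j)) :
    Continuous (fun p : OnePoint ℕ × Y => Φ p.1 p.2) ↔
      TendstoLocallyUniformly (fun j : ℕ => Φ j) (Φ OnePoint.infty) atTop := by
  let Ψ : OnePoint ℕ → C(Y, Z) := fun j => ⟨Φ j, hc j⟩
  have h1 : Continuous Ψ ↔
      TendstoLocallyUniformly (fun j : ℕ => Φ j) (Φ OnePoint.infty) atTop := by
    rw [OnePoint.continuous_iff_from_nat, ContinuousMap.tendsto_iff_tendstoLocallyUniformly]
    rfl
  rw [← h1]
  exact ⟨fun h => (ContinuousMap.curry ⟨_, h⟩).continuous,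
    fun h => ContinuousMap.continuous_uncurry_of_continuous ⟨Ψ, h⟩⟩

variable {α : Type*} {l : Filter α}

lemma lq_bdd (n : ℕ) : ∀ H : α → XS,
    (∀ u m, ∃ C, ∀ᶠ a in l, ∀ y, nA m (dXw u (H a).1 y) ≤ C) →
    ∃ C, ∀ᶠ a in l, lq ZX nX n (H a) ≤ C := by
  induction n with
  | zero =>
    intro H hH
    obtain ⟨C, h⟩ := hH [] 0
    refine ⟨C, h.mono fun a h => (le_abs_self _).trans (abs_tint_le_const fun y => ?_)⟩
    rw [abs_of_nonneg (ip_self_nonneg _), ← nA_zero]
    exact h y
  | succ n ih =>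
    intro H hH
    have h : ∀ z, ∃ C, ∀ᶠ a in l, lq ZX nX n (ZX z (H a)) ≤ C := fun z => by
      refine ih _ fun u m => ?_
      rcases z with i | i
      · exact hH (i :: u) m
      · obtain ⟨C, h⟩ := hH u (m + 1)
        refine ⟨C, h.mono fun a h y => le_trans ?_ (h y)⟩
        have e : dXw u (ZX (Sum.inr i) (H a)).1 y = ap i (dXw u (H a).1 y) :=
          congrFun (dXw_clm (XS.sm (H a)) (ap i) u) y
        rw [e]
        exact nA_ap_le m i _
    choose C hC using h
    exact ⟨∑ z, C z, (eventually_all.2 hC).mono fun a h => sum_le_sum fun z _ => h z⟩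

lemma Zs_le (z : Fin 3 ⊕ Fin 3) (G : XS) :
    bX.B (ZsX z G) (ZsX z G) ≤ bX.B (ZX z G) (ZX z G) := by
  rcases z with i | j
  · simp [ZX, ZsX]
  · exact tint_mono (XS.cont_ip _ _) (XS.cont_ip _ _) fun x => ip_am_le j _

/-- Bounded at all orders and small at order zero implies small at all orders. -/
lemma interp {H : α → XS} (hb : ∀ u m, ∃ C, ∀ᶠ a in l, ∀ y, nA m (dXw u (H a).1 y) ≤ C)
    (h0 : ∀ η : ℝ, 0 < η → ∀ᶠ a in l, ∀ y, nA 0 ((H a).1 y) ≤ η) (n : ℕ) :
    Tendsto (fun a => (Solver.lev ZX bX n).nr (H a)) l (𝓝 0) := by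
  have h1 : ∀ n, Tendsto (fun a => lq ZX nX n (H a)) l (𝓝 0) := by
    intro n
    induction n with
    | zero =>
      refine tendsto_order.2 ⟨fun c hc => .of_forall fun a => hc.trans_le (bX.nonneg _),
        fun c hc => (h0 (c / 2) (half_pos hc)).mono fun a h => lt_of_le_of_lt ?_ (half_lt_self hc)⟩
      refine (le_abs_self _).trans (abs_tint_le_const fun y => ?_)
      rw [abs_of_nonneg (ip_self_nonneg _), ← nA_zero]
      exact h y
    | succ n ih =>
      refine tendsto_order.2 ⟨fun c hc => .of_forall fun a =>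
        hc.trans_le (lq_nonneg bX.nonneg _ _), fun c hc => ?_⟩
      obtain ⟨C, hC⟩ := lq_bdd (n + 2) H hb
      have hε : 0 < c / 2 / (|C| + 1) := by positivity
      have h2 := ih.const_mul ((Fintype.card (Fin 3 ⊕ Fin 3) : ℝ) / (c / 2 / (|C| + 1)))
      rw [mul_zero] at h2
      filter_upwards [hC, h2.eventually (gt_mem_nhds (half_pos hc))] with a h3 h4
      have h5 := M7.lq_interp adjX Zs_le hε n (H a)
      have h6 : c / 2 / (|C| + 1) * lq ZX nX (n + 2) (H a) ≤ c / 2 := by
        rw [div_mul_eq_mul_div, div_le_iff₀ (by positivity)]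
        exact mul_le_mul_of_nonneg_left (by linarith [le_abs_self C]) (half_pos hc).le
      linarith
  have h2 := (tendsto_finsetSum (range (n + 1)) fun j _ => h1 j).sqrt
  simp only [sum_const_zero, Real.sqrt_zero] at h2
  refine h2.congr fun a => ?_
  rw [← Real.sqrt_sq ((Solver.lev ZX bX n).nr_nonneg _), lev_nr_sq]
  rfl

lemma small_of_lev {H : α → XS} (h : ∀ n, Tendsto (fun a => (Solver.lev ZX bX n).nr (H a)) l (𝓝 0))
    (u : List (Fin 3)) (m : ℕ) {η : ℝ} (hη : 0 < η) :
    ∀ᶠ a in l, ∀ y, (qA m).nr (dXw u (H a).1 y) < η := by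
  have h1 := (h (m + 3 + u.length)).const_mul √KS
  rw [mul_zero] at h1
  exact (h1.eventually (gt_mem_nhds hη)).mono fun a h y => (qA_nr_le m u _ y).trans_lt h

/-- A convergent sequence of families together with its limit is a smooth family. -/
lemma smC_onePoint {s0 : ℝ} {Φ : OnePoint ℕ → ℝ → XS}
    (hf : ∀ j : ℕ, SmC fun s => (Φ j s).1)
    (h : ∀ s1 n, Tendsto (fun a : ℕ × ℝ => (Solver.lev ZX bX n).nr (Φ a.1 a.2 - Φ OnePoint.infty a.2))
      (atTop ×ˢ 𝓟 (Icc s0 s1)) (𝓝 0)) :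
    SmC fun p : OnePoint ℕ × ℝ => (Φ p.1 (max p.2 s0)).1 := by
  intro u
  refine ⟨continuous_iff_qA.2 fun m => ?_, fun p => ((XS.sm _).dXw u).dif⟩
  let Ψ : OnePoint ℕ → ℝ × E3 → Lvl (qA m) := fun j q => toL (qA m) (dXw u (Φ j (max q.1 s0)).1 q.2)
  have h1 : TendstoLocallyUniformly (fun j : ℕ => Ψ j) (Ψ OnePoint.infty) atTop := by
    rw [Metric.tendstoLocallyUniformly_iff]
    intro η hη q
    refine ⟨{r | r.1 < q.1 + 1}, (isOpen_lt continuous_fst continuous_const).mem_nhds
      (lt_add_one q.1), ?_⟩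
    have h2 := small_of_lev (h (max (q.1 + 1) s0)) u m hη
    rw [eventually_prod_principal_iff] at h2
    filter_upwards [h2] with j hj r hr
    rw [dist_comm, dist_eq_norm, ← map_sub, ← evX_apply, ← evX_apply, ← map_sub, evX_apply]
    exact hj _ ⟨le_max_right _ _, max_le_max_right _ (le_of_lt hr)⟩ _
  have h2 : ∀ j : ℕ, Continuous (Ψ j) := fun j => continuous_iff_qA.1
    (((hf j).reparam (continuous_id.max continuous_const)).dXw u).cont m
  have h3 : ∀ j, Continuous (Ψ j) := fun j => by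
    induction j using OnePoint.rec with
    | infty => exact h1.continuous (.of_forall h2)
    | coe j => exact h2 j
  exact ((cont_onePoint h3).2 h1).comp (Homeomorph.prodAssoc _ _ _).continuous

end SvLim

open SvLim Solver in
theorem svLim : SvLimStmt := by
  intro Q F k s0 ε N h h' g e hF hk _ hI bh bg be
  let xh : ℕ → ℝ → XS := fun j s => ⟨h j s, (hI.smd j).sm.slice s, hI.per j s⟩
  let xg : ℕ → ℝ → XS := fun j s => ⟨g j s, (hI.smg j).slice s, hI.perg j s⟩
  let xe : ℕ → ℝ → XS := fun j s => ⟨e j s, (hI.sme j).slice s, hI.pere j s⟩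
  have sub_le : ∀ (G H : XS) u m y, nA m (dXw u (G - H).1 y) ≤
      2 * nA m (dXw u G.1 y) + 2 * nA m (dXw u H.1 y) := fun G H u m y => by
    rw [← evX_apply, map_sub, evX_apply, evX_apply]
    exact nA_sub_le _ _ _
  have c1 : ∀ s1 n, Tendsto (fun a : (ℕ × ℕ) × ℝ => (Solver.lev ZX bX n).nr (xh a.1.1 a.2 - xh a.1.2 a.2))
      ((atTop ×ˢ atTop) ×ˢ 𝓟 (Icc s0 s1)) (𝓝 0) := fun s1 => by
    refine interp (fun u m => ?_) fun η hη => ?_
    · obtain ⟨C, hC⟩ := bh s1 m u
      refine ⟨2 * C + 2 * C, eventually_prod_principal_iff.2 ?_⟩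
      filter_upwards [hC.prod_mk hC] with j hj s hs y
      exact (sub_le _ _ u m y).trans (by linarith [hj.1 s hs y, hj.2 s hs y])
    · obtain ⟨J, hJ⟩ := hI.cauchy s1 η hη
      refine eventually_prod_principal_iff.2 ?_
      filter_upwards [(eventually_ge_atTop J).prod_mk (eventually_ge_atTop J)] with j hj s hs y
      exact (nA_mono (Nat.zero_le N) _).trans ((hJ _ hj.1 _ hj.2 s hs).1 [] (by simp) y)
  have c2 : ∀ s1 n, Tendsto (fun a : ℕ × ℝ => (Solver.lev ZX bX n).nr (xg a.1 a.2 - xh a.1 a.2))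
      (atTop ×ˢ 𝓟 (Icc s0 s1)) (𝓝 0) := fun s1 => by
    refine interp (fun u m => ?_) fun η hη => ?_
    · obtain ⟨C, hC⟩ := bh s1 m u
      obtain ⟨C', hC'⟩ := bg s1 m u
      refine ⟨2 * C' + 2 * C, eventually_prod_principal_iff.2 ?_⟩
      filter_upwards [hC, hC'] with j hj hj' s hs y
      exact (sub_le _ _ u m y).trans (by linarith [hj s hs y, hj' s hs y])
    · obtain ⟨J, hJ⟩ := hI.cauchy s1 η hη
      refine eventually_prod_principal_iff.2 ?_
      filter_upwards [eventually_ge_atTop J] with j hj s hs y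
      exact (nA_mono (Nat.zero_le N) _).trans ((hJ _ hj _ hj s hs).2.1 [] (by simp) y)
  have c3 : ∀ s1 n, Tendsto (fun a : ℕ × ℝ => (Solver.lev ZX bX n).nr (xe a.1 a.2))
      (atTop ×ˢ 𝓟 (Icc s0 s1)) (𝓝 0) := fun s1 => by
    refine interp (fun u m => ?_) fun η hη => ?_
    · obtain ⟨C, hC⟩ := be s1 m u
      exact ⟨C, eventually_prod_principal_iff.2 hC⟩
    · obtain ⟨J, hJ⟩ := hI.cauchy s1 η hη
      refine eventually_prod_principal_iff.2 ?_
      filter_upwards [eventually_ge_atTop J] with j hj s hs y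
      exact (nA_mono (Nat.zero_le N) _).trans ((hJ _ hj _ hj s hs).2.2 [] (by simp) y)
  have lim : ∀ s, ∃ y : XS, s0 ≤ s →
      ∀ n, Tendsto (fun j => (Solver.lev ZX bX n).nr (xh j s - y)) atTop (𝓝 0) := fun s => by
    by_cases hs : s0 ≤ s
    swap
    · exact ⟨0, fun h => absurd h hs⟩
    refine (XS_complete (fun j => xh j s) fun n => ?_).imp fun y hy _ => hy
    have h1 : CauchySeq fun j => toL (Solver.lev ZX bX n) (xh j s) := by
      rw [cauchySeq_iff_tendsto_dist_atTop_0, ← prod_atTop_atTop_eq]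
      have h2 := (c1 s n).comp (tendsto_id.prodMk
        (tendsto_principal.2 (.of_forall fun _ => (⟨hs, le_rfl⟩ : s ∈ Icc s0 s))))
      refine h2.congr fun a => ?_
      rw [dist_eq_norm, ← map_sub]
      rfl
    obtain ⟨b, b0, b1, b2⟩ := cauchySeq_iff_le_tendsto_0.1 h1
    refine ⟨b, b2, fun M M' => ?_⟩
    have h3 := b1 M M' (min M M') (min_le_left _ _) (min_le_right _ _)
    rw [dist_eq_norm, ← map_sub] at h3
    refine le_trans h3 ?_
    rcases min_choice M M' with e | e <;> rw [e] <;> linarith [b0 M, b0 M']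
  choose y hy using lim
  have d1 : ∀ s1 n, Tendsto (fun a : ℕ × ℝ => (Solver.lev ZX bX n).nr (xh a.1 a.2 - y a.2))
      (atTop ×ˢ 𝓟 (Icc s0 s1)) (𝓝 0) := fun s1 n => by
    refine tendsto_order.2 ⟨fun c hc => .of_forall fun a => hc.trans_le (PD.nr_nonneg _ _),
      fun c hc => ?_⟩
    have h1 := (c1 s1 n).eventually (gt_mem_nhds (half_pos hc))
    rw [eventually_prod_principal_iff, prod_atTop_atTop_eq, eventually_atTop] at h1
    obtain ⟨J, hJ⟩ := h1
    refine eventually_prod_principal_iff.2 ?_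
    filter_upwards [eventually_ge_atTop J.1] with j hj s hs
    obtain ⟨i, hi, hi'⟩ := ((eventually_ge_atTop J.2).and
      ((hy s hs.1 n).eventually (gt_mem_nhds (half_pos hc)))).exists
    have h2 := hJ (j, i) ⟨hj, hi⟩ s hs
    have h3 := (Solver.lev ZX bX n).nr_triangle (xh j s) (xh i s) (y s)
    dsimp only at h2 ⊢
    linarith
  have d2 : ∀ s1 n, Tendsto (fun a : ℕ × ℝ => (Solver.lev ZX bX n).nr (xg a.1 a.2 - y a.2))
      (atTop ×ˢ 𝓟 (Icc s0 s1)) (𝓝 0) := fun s1 n => by
    have h1 := (c2 s1 n).add (d1 s1 n)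
    rw [add_zero] at h1
    exact squeeze_zero (fun _ => PD.nr_nonneg _ _) (fun a => PD.nr_triangle _ _ _ _) h1
  have sh := smC_onePoint (s0 := s0) (Φ := fun j => OnePoint.elim j y xh)
    (fun j => (hI.smd j).sm) d1
  have sg := smC_onePoint (s0 := s0) (Φ := fun j => OnePoint.elim j y xg) (fun j => hI.smg j) d2
  have se := smC_onePoint (s0 := s0) (Φ := fun j => OnePoint.elim j (fun _ => 0) xe)
    (fun j => hI.sme j) fun s1 n => (c3 s1 n).congr fun a => congrArg _ (sub_zero _).symm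
  have sk : SmC fun p : OnePoint ℕ × ℝ => k p.2 := hk.reparam continuous_snd
  have sR := (((((Alg.smC_src hF).reparam (continuous_snd (X := OnePoint ℕ))).add
    ((sk.const_smul (1 / 2)).smul (SmC.bilin Q.G Q.cont sg sg))).add se).sub
    (Alg.smC_tr' hF continuous_snd sh)).sub (sk.smul (sh.clm Q.L))
  have conv : ∀ s, s0 ≤ s → ∀ x, Tendsto (fun j => h j s x) atTop (𝓝 ((y (max s s0)).1 x)) := by
    intro s hs x
    have h1 := (OnePoint.continuous_iff_from_nat _).1
      ((sh.cont_time x).comp (Continuous.prodMk_left s))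
    simpa [max_eq_left hs] using h1
  refine ⟨fun s => (y (max s s0)).1, sh.reparam (Continuous.prodMk_right OnePoint.infty),
    fun s => XS.per _, fun s hs x V => ?_, fun s hs x => hd_iff_qA.2 fun m => ?_⟩
  · exact ((PicLim.evV V).continuous.tendsto _).comp (conv s hs x)
  · have h1 := continuous_iff_qA.1 (sR.cont_time x) m
    have h2 := (cont_onePoint (fun j => h1.comp (Continuous.prodMk_right j))).1 h1
    refine hasDerivAt_of_tendstoLocallyUniformlyOn (l := atTop) isOpen_Ioi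
      (f := fun j t => toL (qA m) (h j t x)) (f' := fun j t => toL (qA m) (h' j t x))
      (g' := fun t => toL (qA m) (rhs Q F k (fun s => (y (max s s0)).1) t x))
      (((h2.tendstoLocallyUniformlyOn (s := Ioi s0)).congr fun j t ht => ?_).congr_right
        fun t ht => ?_) (.of_forall fun j t _ => hd_iff_qA.1 ((hI.smd j).hd t x) m)
      (fun t ht => tendsto_iff_qA.1 (conv t (le_of_lt ht) x) m) hs
    · refine congrArg (toL (qA m)) ?_
      have ht' : s0 ≤ t := le_of_lt ht
      have h3 := hI.eqn j t ht' x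
      simp only [OnePoint.elim_some, max_eq_left ht', xh, xg, xe, smul_eq_mul]
      rw [show 1 / 2 * k t x = k t x / 2 by ring, ← h3]
      abel
    · refine congrArg (toL (qA m)) ?_
      simp only [OnePoint.elim_infty, rhs, smul_eq_mul]
      rw [show 1 / 2 * k t x = k t x / 2 by ring]
      simp

end Pool.Agent.MP_187b32_an
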