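import Pool.Agent.MP_187b32_an.M7.Spec2
import Pool.Agent.MP_187b32_an.Bg.Main
import Pool.Agent.MP_187b32_an.Calc.Eval

/-! Module M7c: all time derivatives of the solution. -/

set_option autoImplicit false
set_option linter.unusedSectionVars false

open Pool.Agent.Boltz Set Filter Topology
open scoped ContDiff

noncomputable section

namespace Pool.Agent.MP_187b32_an.Time

variable {F : Type*} [AddCommGroup F] [Module ℝ F] [TopologicalSpace F]
  [IsTopologicalAddGroup F] [ContinuousSMul ℝ F] [T2Space F]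
variable {F₁ : Type*} [AddCommGroup F₁] [Module ℝ F₁] [TopologicalSpace F₁]
  [IsTopologicalAddGroup F₁] [ContinuousSMul ℝ F₁] [T2Space F₁]
variable {F₂ : Type*} [AddCommGroup F₂] [Module ℝ F₂] [TopologicalSpace F₂]
  [IsTopologicalAddGroup F₂] [ContinuousSMul ℝ F₂] [T2Space F₂]
variable {s0 : ℝ}

/-- A curve that is differentiable to the right of `s0` extends to a differentiable curve. -/
theorem hd_ext [LocallyConvexSpace ℝ F] {γ γ' : ℝ → F} (hc : Continuous γ) (hc' : Continuous γ')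
    (h : ∀ t, s0 < t → HD γ (γ' t) t) (t : ℝ) :
    HD (fun t => γ (max t s0) + min (t - s0) 0 • γ' s0) (γ' (max t s0)) t := by
  rcases lt_trichotomy t s0 with ht | rfl | ht
  · rw [max_eq_right ht.le]
    have h1 : HD (fun σ => γ s0 + (σ - s0) • γ' s0) (γ' s0) t := by
      simpa using (HD.const (γ s0) t).add
        ((HasDerivAt.hd ((hasDerivAt_id t).sub_const s0)).smul_const (γ' s0))
    refine h1.congr_of_eventuallyEq ?_
    filter_upwards [gt_mem_nhds ht] with σ hσ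
    rw [max_eq_right hσ.le, min_eq_left (sub_nonpos.2 hσ.le)]
  · have hW := PolynormableSpace.withSeminorms ℝ F
    unfold HD
    rw [hW.tendsto_nhds]
    rintro ⟨p, hp⟩ ε hε
    have h1 : ∀ᶠ σ in 𝓝 t, p (γ' σ - γ' t) < ε / 2 :=
      (hW.tendsto_nhds _ _).1 (hc'.tendsto t) ⟨p, hp⟩ (ε / 2) (by positivity)
    obtain ⟨δ, hδ, hball⟩ := Metric.eventually_nhds_iff.1 h1
    have hsmall : ∀ᶠ η : ℝ in 𝓝[≠] 0, |η| < δ := by
      have : ∀ᶠ η : ℝ in 𝓝 0, |η| < δ := by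
        filter_upwards [Metric.ball_mem_nhds (0 : ℝ) hδ] with η hη
        simpa using hη
      exact this.filter_mono nhdsWithin_le_nhds
    filter_upwards [hsmall, self_mem_nhdsWithin] with η hη h0
    have h0' : η ≠ 0 := h0
    show p _ < ε
    simp only [max_self, sub_self, min_self, zero_smul, add_zero, add_sub_cancel_left]
    rcases h0'.lt_or_gt with hn | hn
    · rw [max_eq_right (by linarith), min_eq_left hn.le, add_sub_cancel_left, smul_smul,
        inv_mul_cancel₀ h0', one_smul, sub_self, map_zero]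
      exact hε
    · rw [max_eq_left (by linarith), min_eq_right hn.le, zero_smul, add_zero]
      have step : ∀ a ∈ Ioc t (t + η), p ((γ (t + η) - (t + η) • γ' t) - (γ a - a • γ' t)) ≤
          ε / 2 * (t + η - a) := fun a ha =>
        seminorm_sub_le_of_le p hp (γ := fun σ => γ σ - σ • γ' t) (γ' := fun σ => γ' σ - γ' t)
          ha.2 (fun σ hσ => (h σ (ha.1.trans_le hσ.1)).sub (HD.id_smul _ σ)) fun σ hσ =>
            (hball (by
              rw [Real.dist_eq, abs_of_pos (by linarith [ha.1, hσ.1])]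
              linarith [hσ.2, le_abs_self η])).le
      have lim : p ((γ (t + η) - (t + η) • γ' t) - (γ t - t • γ' t)) ≤ ε / 2 * (t + η - t) := by
        refine le_of_tendsto_of_tendsto (b := 𝓝[>] t)
          (f := fun a => p ((γ (t + η) - (t + η) • γ' t) - (γ a - a • γ' t)))
          (g := fun a => ε / 2 * (t + η - a)) ?_ ?_ ?_
        · refine Tendsto.mono_left (Continuous.tendsto ?_ t) nhdsWithin_le_nhds
          exact hp.comp (by fun_prop)
        · exact Tendsto.mono_left (Continuous.tendsto (by fun_prop) t) nhdsWithin_le_nhds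
        · filter_upwards [Ioc_mem_nhdsGT (show t < t + η by linarith)] with a ha using step a ha
      have e : η⁻¹ • (γ (t + η) - γ t) - γ' t =
          η⁻¹ • ((γ (t + η) - (t + η) • γ' t) - (γ t - t • γ' t)) := by
        have : (γ (t + η) - (t + η) • γ' t) - (γ t - t • γ' t) = γ (t + η) - γ t - η • γ' t := by
          module
        rw [this, smul_sub η⁻¹ (γ (t + η) - γ t), smul_smul, inv_mul_cancel₀ h0', one_smul]
      rw [e, map_smul_eq_mul, Real.norm_eq_abs, abs_of_pos (inv_pos.2 hn)]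
      rw [add_sub_cancel_left] at lim
      calc η⁻¹ * _ ≤ η⁻¹ * (ε / 2 * η) := mul_le_mul_of_nonneg_left lim (inv_pos.2 hn).le
        _ = ε / 2 := by field_simp
        _ < ε := by linarith
  · rw [max_eq_left ht.le]
    refine (h t ht).congr_of_eventuallyEq ?_
    filter_upwards [lt_mem_nhds ht] with σ hσ
    rw [max_eq_left hσ.le, min_eq_right (sub_nonneg.2 hσ.le), zero_smul, add_zero]

/-- `g'` is the time derivative of `g` to the right of `s0`. -/
structure RD (s0 : ℝ) (g g' : ℝ → E3 → F) : Prop where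
  sm : SmC g
  sm' : SmC g'
  hd : ∀ s, s0 < s → ∀ x, HD (fun t => g t x) (g' s x) s

theorem RD.ext [LocallyConvexSpace ℝ F] {g g' : ℝ → E3 → F} (h : RD s0 g g') :
    SmD (fun t x => g (max t s0) x + min (t - s0) 0 • g' s0 x) fun t x => g' (max t s0) x :=
  ⟨(h.sm.reparam (r := fun t : ℝ => max t s0) (by fun_prop)).add
      ((SmC.of_time (φ := fun t : ℝ => min (t - s0) 0) (by fun_prop)).smul (h.sm'.slice s0).smC),
    h.sm'.reparam (r := fun t : ℝ => max t s0) (by fun_prop), fun s x =>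
      hd_ext (γ := fun t => g t x) (γ' := fun t => g' t x) (h.sm.cont_time x) (h.sm'.cont_time x)
        (fun t ht => h.hd t ht x) s⟩

theorem ext_eq (g g' : ℝ → E3 → F) {t : ℝ} (ht : s0 ≤ t) :
    (fun x => g (max t s0) x + min (t - s0) 0 • g' s0 x) = g t := by
  funext x
  rw [max_eq_left ht, min_eq_right (sub_nonneg.2 ht), zero_smul, add_zero]

theorem RD.dX [LocallyConvexSpace ℝ F] {g g' : ℝ → E3 → F} (h : RD s0 g g') (i : Fin 3) :
    RD s0 (fun s => dX i (g s)) fun s => dX i (g' s) := by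
  refine ⟨h.sm.dX i, h.sm'.dX i, fun s hs x => ?_⟩
  have h1 := (h.ext.dX i).hd s x
  simp only [max_eq_left hs.le] at h1
  refine h1.congr_of_eventuallyEq ?_
  filter_upwards [lt_mem_nhds hs] with σ hσ
  rw [ext_eq g g' hσ.le]

/-- Periodic smooth families with `n` time derivatives to the right of `s0`. -/
def TD (s0 : ℝ) : ℕ → (ℝ → E3 → F) → Prop
  | 0, g => SmC g ∧ ∀ s, Per (g s)
  | n + 1, g => (∀ s, Per (g s)) ∧ ∃ g', RD s0 g g' ∧ TD s0 n g'

theorem TD.sm {n : ℕ} {g : ℝ → E3 → F} (h : TD s0 n g) : SmC g := by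
  cases n with
  | zero => exact h.1
  | succ n => obtain ⟨-, g', h, -⟩ := h; exact h.sm

theorem TD.per {n : ℕ} {g : ℝ → E3 → F} (h : TD s0 n g) : ∀ s, Per (g s) := by
  cases n with
  | zero => exact h.2
  | succ n => exact h.1

theorem TD.pred {n : ℕ} {g : ℝ → E3 → F} (h : TD s0 (n + 1) g) : TD s0 n g := by
  induction n generalizing g with
  | zero => exact ⟨h.sm, h.per⟩
  | succ n ih =>
    obtain ⟨hp, g', h1, h2⟩ := h
    exact ⟨hp, g', h1, ih h2⟩

theorem TD.const (n : ℕ) (c : F) : TD s0 n fun _ _ => c := by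
  induction n generalizing c with
  | zero => exact ⟨SmC.const c, fun _ => Per.const c⟩
  | succ n ih =>
    exact ⟨fun _ => Per.const c, _, ⟨SmC.const c, SmC.const 0, fun s _ _ => HD.const c s⟩, ih 0⟩

theorem TD.add {n : ℕ} {g h : ℝ → E3 → F} (hg : TD s0 n g) (hh : TD s0 n h) :
    TD s0 n fun s x => g s x + h s x := by
  induction n generalizing g h with
  | zero => exact ⟨hg.sm.add hh.sm, fun s => (hg.per s).map₂ (hh.per s) (· + ·)⟩
  | succ n ih =>
    obtain ⟨p1, g', r1, t1⟩ := hg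
    obtain ⟨p2, h', r2, t2⟩ := hh
    exact ⟨fun s => (p1 s).map₂ (p2 s) (· + ·), _, ⟨r1.sm.add r2.sm, r1.sm'.add r2.sm',
      fun s hs x => (r1.hd s hs x).add (r2.hd s hs x)⟩, ih t1 t2⟩

theorem TD.clm {n : ℕ} {g : ℝ → E3 → F₁} (hg : TD s0 n g) (A : F₁ →L[ℝ] F₂) :
    TD s0 n fun s x => A (g s x) := by
  induction n generalizing g with
  | zero => exact ⟨hg.sm.clm A, fun s => (hg.per s).map A⟩
  | succ n ih =>
    obtain ⟨p1, g', r1, t1⟩ := hg
    exact ⟨fun s => (p1 s).map A, _, ⟨r1.sm.clm A, r1.sm'.clm A,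
      fun s hs x => (r1.hd s hs x).clm A⟩, ih t1⟩

theorem TD.neg {n : ℕ} {g : ℝ → E3 → F} (hg : TD s0 n g) : TD s0 n fun s x => -g s x :=
  hg.clm (-ContinuousLinearMap.id ℝ F)

theorem TD.sub {n : ℕ} {g h : ℝ → E3 → F} (hg : TD s0 n g) (hh : TD s0 n h) :
    TD s0 n fun s x => g s x - h s x := by
  simpa only [sub_eq_add_neg] using hg.add hh.neg

theorem TD.sum {n : ℕ} {ι : Type*} (S : Finset ι) {g : ι → ℝ → E3 → F}
    (hg : ∀ j ∈ S, TD s0 n (g j)) : TD s0 n fun s x => ∑ j ∈ S, g j s x := by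
  classical
  induction S using Finset.induction_on with
  | empty => simpa using TD.const n 0
  | insert a S ha ih =>
    simp only [Finset.sum_insert ha]
    exact (hg a (Finset.mem_insert_self a S)).add (ih fun j hj => hg j (Finset.mem_insert_of_mem hj))

theorem TD.bilin (B : F₁ →ₗ[ℝ] F₂ →ₗ[ℝ] F) (hB : Continuous fun p : F₁ × F₂ => B p.1 p.2) {n : ℕ}
    {g : ℝ → E3 → F₁} {h : ℝ → E3 → F₂} (hg : TD s0 n g) (hh : TD s0 n h) :
    TD s0 n fun s x => B (g s x) (h s x) := by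
  induction n generalizing g h with
  | zero => exact ⟨SmC.bilin B hB hg.sm hh.sm, fun s => (hg.per s).map₂ (hh.per s) fun a b => B a b⟩
  | succ n ih =>
    have g0 := hg.pred
    have h0 := hh.pred
    obtain ⟨p1, g', r1, t1⟩ := hg
    obtain ⟨p2, h', r2, t2⟩ := hh
    exact ⟨fun s => (p1 s).map₂ (p2 s) fun a b => B a b, _, ⟨SmC.bilin B hB r1.sm r2.sm,
      (SmC.bilin B hB r1.sm' r2.sm).add (SmC.bilin B hB r1.sm r2.sm'),
      fun s hs x => HD.bilin B hB (r1.hd s hs x) (r2.hd s hs x)⟩, (ih t1 h0).add (ih g0 t2)⟩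

theorem TD.smul {n : ℕ} {c : ℝ → E3 → ℝ} {g : ℝ → E3 → F} (hc : TD s0 n c) (hg : TD s0 n g) :
    TD s0 n fun s x => c s x • g s x :=
  TD.bilin (LinearMap.lsmul ℝ F) continuous_lsmul hc hg

theorem TD.dX [LocallyConvexSpace ℝ F] {n : ℕ} {g : ℝ → E3 → F} (hg : TD s0 n g) (i : Fin 3) :
    TD s0 n fun s => dX i (g s) := by
  induction n generalizing g with
  | zero => exact ⟨hg.sm.dX i, fun s => (hg.per s).dX i⟩
  | succ n ih =>
    obtain ⟨p1, g', r1, t1⟩ := hg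
    exact ⟨fun s => (p1 s).dX i, _, r1.dX i, ih t1⟩

theorem td_of_cd (n : ℕ) {c : ℝ → E3 → ℝ} (hc : CD c) (hp : ∀ s, Per (c s)) : TD s0 n c := by
  induction n generalizing c with
  | zero => exact ⟨hc.smC, hp⟩
  | succ n ih =>
    exact ⟨hp, _, ⟨hc.smC, hc.dS.smC, fun s _ x => hc.smD.hd s x⟩, ih hc.dS (per_dS hp)⟩

/-! ### The equation gives all time derivatives -/

theorem td_vel {B : BgD} (hB : B.Ok) {n : ℕ} {g : ℝ → E3 → SV} (hg : TD s0 n g) :
    TD s0 n fun s x => (B.fld s).vel x (g s x) := by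
  have h0 := fun j => td_of_cd (s0 := s0) n (BgD.cd_fld_b0 hB.cd_u hB.cd_C hB.C_pos j)
    fun s => ((hB.fldC.reg s).b0 j).2
  have h1 := fun i j => td_of_cd (s0 := s0) n (BgD.cd_fld_b1 hB.cd_u hB.cd_C hB.C_pos i j)
    fun s => ((hB.fldC.reg s).b1 i j).2
  have h2 := fun i => td_of_cd (s0 := s0) n (BgD.cd_fld_b2 hB.cd_C i)
    fun s => ((hB.fldC.reg s).b2 i).2
  exact (((TD.sum _ fun j _ => (h0 j).smul (hg.clm (ap j))).add
    (TD.sum _ fun i _ => TD.sum _ fun j _ => (h1 i j).smul ((hg.clm (ap j)).clm (mulV i)))).add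
    (TD.sum _ fun i _ => TD.sum _ fun j _ =>
      (h2 i).smul (((hg.clm (ap j)).clm (mulV j)).clm (mulV i)))).neg

theorem td_rhs (Q : CollOp) {B : BgD} (hB : B.Ok) (A : ℝ) {n : ℕ} {g : ℝ → E3 → SV}
    (hg : TD s0 n g) : TD s0 n (rhs Q B.fld (fun s x => A * B.k1 s x) g) := by
  have hu := fun i => td_of_cd (s0 := s0) n (BgD.cd_fld_u hB.cd_u i)
    fun s => ((hB.fldC.reg s).u i).2
  have hc := td_of_cd (s0 := s0) n (BgD.cd_fld_c (B := B) hB.cd_C) fun s => (hB.fldC.reg s).c.2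
  have hk := td_of_cd (s0 := s0) n ((CD.const A).mul (BgD.cd_k1 hB.cd_C))
    fun s => (BgD.per_k1 hB.per_C s).map fun a => A * a
  have hk2 := td_of_cd (s0 := s0) n
    (((CD.const A).mul (BgD.cd_k1 hB.cd_C)).div (CD.const 2) fun _ _ => two_ne_zero)
    fun s => (BgD.per_k1 hB.per_C s).map fun a => A * a / 2
  exact (((td_vel hB (TD.const n sqMS)).neg.add (hk2.smul (TD.bilin Q.G Q.cont hg hg))).sub
    ((TD.sum _ fun i _ => ((hu i).smul (hg.dX i)).add (hc.smul ((hg.dX i).clm (mulV i)))).add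
      (td_vel hB hg))).sub (hk.smul (hg.clm Q.L))

/-! ### Back to functions of `(s, x, V)` -/

/-- `C^n` with rapid decay of the derivative of order `n`. -/
structure Nc {Y : Type*} [NormedAddCommGroup Y] [NormedSpace ℝ Y] (s0 : ℝ) (n : ℕ)
    (φ : ℝ × E3 × E3 → Y) : Prop where
  cd : ContDiffOn ℝ n φ (Ici s0 ×ˢ univ)
  bd : ∀ (s1 : ℝ) (q : ℕ), ∃ C : ℝ, ∀ s ∈ Icc s0 s1, ∀ x V : E3,
    (1 + ‖V‖) ^ q * ‖iteratedFDerivWithin ℝ n φ (Ici s0 ×ˢ univ) (s, x, V)‖ ≤ C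

variable {Y Z : Type*} [NormedAddCommGroup Y] [NormedSpace ℝ Y] [NormedAddCommGroup Z]
  [NormedSpace ℝ Z]

theorem ud (s0 : ℝ) : UniqueDiffOn ℝ (Ici s0 ×ˢ (univ : Set (E3 × E3))) :=
  (uniqueDiffOn_Ici s0).prod uniqueDiffOn_univ

theorem Nc.congr {n : ℕ} {φ ψ : ℝ × E3 × E3 → Y} (h : Nc s0 n φ)
    (e : EqOn ψ φ (Ici s0 ×ˢ univ)) : Nc s0 n ψ := by
  refine ⟨h.cd.congr e, fun s1 q => ?_⟩
  obtain ⟨C, hC⟩ := h.bd s1 q
  refine ⟨C, fun s hs x V => ?_⟩
  rw [iteratedFDerivWithin_congr e (x := (s, x, V)) ⟨hs.1, trivial⟩]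
  exact hC s hs x V

theorem Nc.add {n : ℕ} {φ ψ : ℝ × E3 × E3 → Y} (h : Nc s0 n φ) (k : Nc s0 n ψ) :
    Nc s0 n fun q => φ q + ψ q := by
  refine ⟨h.cd.add k.cd, fun s1 q => ?_⟩
  obtain ⟨C, hC⟩ := h.bd s1 q
  obtain ⟨D, hD⟩ := k.bd s1 q
  refine ⟨C + D, fun s hs x V => ?_⟩
  have hm : (s, x, V) ∈ Ici s0 ×ˢ (univ : Set (E3 × E3)) := ⟨hs.1, trivial⟩
  rw [fun_iteratedFDerivWithin_add_apply (h.cd _ hm) (k.cd _ hm) (ud s0) hm]
  refine le_trans ?_ (add_le_add (hC s hs x V) (hD s hs x V))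
  rw [← mul_add]
  exact mul_le_mul_of_nonneg_left (norm_add_le _ _) (by positivity)

theorem Nc.clm {n : ℕ} {φ : ℝ × E3 × E3 → Y} (h : Nc s0 n φ) (L : Y →L[ℝ] Z) :
    Nc s0 n fun q => L (φ q) := by
  refine ⟨L.contDiff.comp_contDiffOn h.cd, fun s1 q => ?_⟩
  obtain ⟨C, hC⟩ := h.bd s1 q
  refine ⟨‖L‖ * C, fun s hs x V => ?_⟩
  have hm : (s, x, V) ∈ Ici s0 ×ˢ (univ : Set (E3 × E3)) := ⟨hs.1, trivial⟩
  have h1 := L.norm_iteratedFDerivWithin_comp_left (h.cd _ hm) (ud s0) hm le_rfl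
  calc _ ≤ (1 + ‖V‖) ^ q * (‖L‖ * _) := mul_le_mul_of_nonneg_left h1 (by positivity)
    _ = ‖L‖ * ((1 + ‖V‖) ^ q * _) := by ring
    _ ≤ _ := mul_le_mul_of_nonneg_left (hC s hs x V) (norm_nonneg _)

theorem Nc.sum3 {n : ℕ} {φ : Fin 3 → ℝ × E3 × E3 → Y} (h : ∀ i, Nc s0 n (φ i)) :
    Nc s0 n fun q => ∑ i, φ i q := by
  simp only [Fin.sum_univ_three]
  exact ((h 0).add (h 1)).add (h 2)

theorem Nc.succ {n : ℕ} {φ : ℝ × E3 × E3 → Y} {φ' : ℝ × E3 × E3 → ℝ × E3 × E3 →L[ℝ] Y}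
    (h : Nc s0 n φ') (hd : ∀ q ∈ Ici s0 ×ˢ univ, HasFDerivWithinAt φ (φ' q) (Ici s0 ×ˢ univ) q) :
    Nc s0 (n + 1) φ := by
  have h1 : Nc s0 n (fderivWithin ℝ φ (Ici s0 ×ˢ univ)) :=
    h.congr fun q hq => (hd q hq).fderivWithin (ud s0 q hq)
  refine ⟨?_, fun s1 q => ?_⟩
  · push_cast
    exact contDiffOn_succ_of_fderivWithin (fun q hq => (hd q hq).differentiableWithinAt)
      (by simp) h1.cd
  · obtain ⟨C, hC⟩ := h1.bd s1 q
    refine ⟨C, fun s hs x V => ?_⟩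
    rw [← norm_iteratedFDerivWithin_fderivWithin (ud s0) (x := (s, x, V)) ⟨hs.1, trivial⟩]
    exact hC s hs x V

/-- The coordinate forms. -/
def lS : ℝ × E3 × E3 →L[ℝ] ℝ := ContinuousLinearMap.fst ℝ ℝ (E3 × E3)

/-- The coordinate forms. -/
def lX (i : Fin 3) : ℝ × E3 × E3 →L[ℝ] ℝ :=
  (frL2 (Sum.inl i)).comp (ContinuousLinearMap.snd ℝ ℝ (E3 × E3))

/-- The coordinate forms. -/
def lV (i : Fin 3) : ℝ × E3 × E3 →L[ℝ] ℝ :=
  (frL2 (Sum.inr i)).comp (ContinuousLinearMap.snd ℝ ℝ (E3 × E3))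

theorem TD.nc {n : ℕ} {g : ℝ → E3 → SV} (hg : TD s0 n g) :
    Nc s0 n fun q => g q.1 q.2.1 q.2.2 := by
  induction n generalizing g with
  | zero =>
    refine ⟨contDiffOn_zero.2 (continuous_eval3 hg.sm.cont).continuousOn, fun s1 q => ?_⟩
    obtain ⟨C, hC, h1⟩ := weighted_le_nA q
    obtain ⟨D, -, h2⟩ := exists_bound_nA hg.sm.cont hg.per (q + 3) (isCompact_Icc (a := s0) (b := s1))
    refine ⟨C * √D, fun s hs x V => ?_⟩
    rw [norm_iteratedFDerivWithin_zero, Real.norm_eq_abs]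
    refine (h1 _ V).1.trans ?_
    gcongr
    exact h2 s hs x
  | succ n ih =>
    have g0 := hg.pred
    obtain ⟨-, g', r1, t1⟩ := hg
    have key := (((ih t1).clm (ContinuousLinearMap.toSpanSingleton ℝ lS)).add
      (Nc.sum3 fun i => (ih (g0.dX i)).clm (ContinuousLinearMap.toSpanSingleton ℝ (lX i)))).add
      (Nc.sum3 fun i => (ih (g0.clm (dV i))).clm (ContinuousLinearMap.toSpanSingleton ℝ (lV i)))
    refine key.succ fun q hq => ?_
    obtain ⟨h1, h2⟩ := r1.ext.contDiff_one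
    have hs : s0 ≤ q.1 := hq.1
    refine ((h1.differentiable one_ne_zero q).hasFDerivAt.hasFDerivWithinAt.congr_fderiv ?_).congr
      (fun z hz => ?_) ?_
    · refine ContinuousLinearMap.ext fun z => ?_
      rw [h2, ext_eq g g' hs, congrFun (ext_eq g g' hs) q.2.1, max_eq_left hs]
      simp [lS, lX, lV, frL2, mul_comm]
    · simp only [congrFun (ext_eq g g' hz.1) z.2.1]
    · rw [congrFun (ext_eq g g' hs) q.2.1]

end Time

open Time in
theorem timeStmt : TimeStmt := by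
  intro Q B hB A s0 G hG hp hd
  have h1 : ∀ n, TD s0 n G := fun n => by
    induction n with
    | zero => exact ⟨hG, hp⟩
    | succ n ih => exact ⟨hp, _, ⟨hG, (td_rhs Q hB A ih).sm, hd⟩, td_rhs Q hB A ih⟩
  have h2 : ∀ n, Nc s0 n fun q => sqM q.2.2 * (sqM q.2.2 + G q.1 q.2.1 q.2.2) := fun n => by
    have := (((TD.const n sqMS).add (h1 n)).clm
      (SchwartzMap.smulLeftCLM ℝ (sqMS : E → ℝ) : SV →L[ℝ] SV)).nc
    simpa [SchwartzMap.smulLeftCLM_apply_apply sqMS.hasTemperateGrowth, mul_add] using this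
  exact ⟨contDiffOn_infty.2 fun n => (h2 n).cd, fun s1 n q => (h2 n).bd s1 q⟩

end Pool.Agent.MP_187b32_an
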